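import Mathlib
set_option autoImplicit false
set_option linter.unusedSectionVars false

/-! A change of density theorem of D. Lewis: the position of a finite dimensional subspace
of `L^p` in which the determinant is maximal. -/

namespace Pool.Agent.Q85.LR

open MeasureTheory Set Filter Topology
open scoped ENNReal NNReal InnerProductSpace

/-- an elementary inequality -/
lemma pow_bound {s A B β : ℝ} (hs : 1 ≤ s) (hA : 0 ≤ A) (hB : 0 ≤ B) (hβ : 0 ≤ β)
    (hBA : B ≤ β * A) : (A + B) ^ s ≤ A ^ s + s * B * (A ^ (s - 1) * (1 + β) ^ (s - 1)) := by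
  rcases hA.eq_or_lt with h0 | hA0
  · have hB0 : B = 0 := by
      rw [← h0, mul_zero] at hBA
      linarith
    rw [← h0, hB0, add_zero, Real.zero_rpow (by linarith)]
    simp
  · have hS : 0 < A + B := by linarith
    have h1 := one_add_mul_self_le_rpow_one_add (s := -(B / (A + B))) (p := s) (by
      rw [neg_le_neg_iff, div_le_one hS]
      linarith) hs
    have h2 : 1 + -(B / (A + B)) = A / (A + B) := by
      field_simp
      ring
    rw [h2, Real.div_rpow hA hS.le] at h1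
    have h3 : 0 < (A + B) ^ s := Real.rpow_pos_of_pos hS s
    rw [le_div_iff₀ h3] at h1
    have h4 : (A + B) ^ s = (A + B) * (A + B) ^ (s - 1) := by
      rw [← Real.rpow_one_add' hS.le (by linarith)]
      congr 1
      ring
    have h5 : B / (A + B) * (A + B) ^ s = B * (A + B) ^ (s - 1) := by
      rw [h4]
      field_simp
    have h6 : (A + B) ^ (s - 1) ≤ A ^ (s - 1) * (1 + β) ^ (s - 1) := by
      rw [← Real.mul_rpow hA (by linarith)]
      apply Real.rpow_le_rpow hS.le _ (by linarith)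
      nlinarith
    have h7 : (A + B) ^ s ≤ A ^ s + s * (B * (A + B) ^ (s - 1)) := by
      rw [← h5]
      nlinarith
    refine h7.trans ?_
    have h8 : s * (B * (A + B) ^ (s - 1)) ≤ s * B * (A ^ (s - 1) * (1 + β) ^ (s - 1)) := by
      rw [mul_assoc]
      gcongr
    linarith

/-- comparison of derivatives -/
lemma deriv_bound {p Z D : ℝ} {n : ℕ} (hp : 0 < p)
    (h : ∀ t : ℝ, 0 < t → (1 + t * Z) ^ p ≤
      (1 + p / 2 * (2 * t + t ^ 2 * Z) * ((1 + (2 * t + t ^ 2 * Z) * Z) ^ (p / 2 - 1) * D)) ^ n) :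
    Z ≤ n * D := by
  have a1 : HasDerivAt (fun t : ℝ => 2 * t + t ^ 2 * Z) 2 0 := by
    have h1 : HasDerivAt (fun t : ℝ => 2 * t) (2 * 1) 0 := (hasDerivAt_id 0).const_mul 2
    have h2 : HasDerivAt (fun t : ℝ => t ^ 2 * Z) ((2 : ℕ) * 0 ^ 1 * Z) 0 := by
      simpa using ((hasDerivAt_pow 2 (0 : ℝ)).mul_const Z)
    have h3 : HasDerivAt (fun t : ℝ => 2 * t + t ^ 2 * Z) (2 * 1 + (2 : ℕ) * 0 ^ 1 * Z) 0 :=
      h1.add h2
    refine h3.congr_deriv ?_
    simp
  have a2 : HasDerivAt (fun t : ℝ => 1 + (2 * t + t ^ 2 * Z) * Z) (2 * Z) 0 :=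
    (a1.mul_const Z).const_add 1
  have a3 : HasDerivAt (fun t : ℝ => (1 + (2 * t + t ^ 2 * Z) * Z) ^ (p / 2 - 1))
      (2 * Z * (p / 2 - 1) * (1 + (2 * 0 + 0 ^ 2 * Z) * Z) ^ (p / 2 - 1 - 1)) 0 :=
    a2.rpow_const (Or.inl (by simp))
  have a4 : HasDerivAt (fun t : ℝ => p / 2 * (2 * t + t ^ 2 * Z) *
      ((1 + (2 * t + t ^ 2 * Z) * Z) ^ (p / 2 - 1) * D)) (p * D) 0 := by
    have h1 := (a1.const_mul (p / 2)).mul (a3.mul_const D)
    refine h1.congr_deriv ?_
    simp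
  have a5 : HasDerivAt (fun t : ℝ => (1 + p / 2 * (2 * t + t ^ 2 * Z) *
      ((1 + (2 * t + t ^ 2 * Z) * Z) ^ (p / 2 - 1) * D)) ^ n) (n * (p * D)) 0 := by
    have h1 := (a4.const_add 1).pow n
    refine h1.congr_deriv ?_
    simp
  have a6 : HasDerivAt (fun t : ℝ => (1 + t * Z) ^ p) (p * Z) 0 := by
    have h1 : HasDerivAt (fun t : ℝ => 1 + t * Z) Z 0 := by
      have := ((hasDerivAt_id (0 : ℝ)).mul_const Z).const_add 1
      simpa using this
    have h2 := h1.rpow_const (p := p) (Or.inl (by simp))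
    refine h2.congr_deriv ?_
    simp
    ring
  have a7 := (a5.sub a6).tendsto_slope_zero_right
  have a8 : 0 ≤ n * (p * D) - p * Z := by
    refine ge_of_tendsto a7 ?_
    filter_upwards [self_mem_nhdsWithin] with t ht
    have ht0 : (0 : ℝ) < t := ht
    simp only [Pi.sub_apply, zero_add, smul_eq_mul]
    apply mul_nonneg (by positivity)
    have h1 := h t ht0
    simp only [mul_zero, zero_mul, add_zero, zero_pow, ne_eq, OfNat.ofNat_ne_zero,
      not_false_eq_true, Real.one_rpow, one_pow]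
    linarith
  have a9 : p * Z ≤ p * (n * D) := by linarith
  exact le_of_mul_le_mul_left a9 hp

variable {Ω : Type*} [MeasurableSpace Ω] {μ : Measure Ω}
variable {E : Type*} [NormedAddCommGroup E] [InnerProductSpace ℂ E] [FiniteDimensional ℂ E]

/-- the functional -/
noncomputable def Psi (μ : Measure Ω) (p : ℝ) (v : Ω → E) (T : E →L[ℂ] E) : ℝ :=
  ∫ ω, ‖T (v ω)‖ ^ p ∂μ

lemma Psi_int {p : ℝ} (hp : 0 ≤ p) {v : Ω → E} (hv : StronglyMeasurable v)
    (hi : Integrable (fun ω => ‖v ω‖ ^ p) μ) (T : E →L[ℂ] E) :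
    Integrable (fun ω => ‖T (v ω)‖ ^ p) μ := by
  refine (hi.const_mul (‖T‖ ^ p)).mono' ?_ ?_
  · exact (((T.continuous.comp_stronglyMeasurable hv).norm.measurable).pow_const
      p).aestronglyMeasurable
  · refine ae_of_all _ fun ω => ?_
    rw [Real.norm_of_nonneg (by positivity), ← Real.mul_rpow (norm_nonneg _) (norm_nonneg _)]
    exact Real.rpow_le_rpow (norm_nonneg _) (T.le_opNorm _) hp

lemma Psi_cont {p : ℝ} (hp : 0 ≤ p) {v : Ω → E} (hv : StronglyMeasurable v)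
    (hi : Integrable (fun ω => ‖v ω‖ ^ p) μ) : Continuous (Psi μ p v) := by
  rw [continuous_iff_continuousAt]
  intro T
  unfold Psi
  apply continuousAt_of_dominated (bound := fun ω => (‖T‖ + 1) ^ p * ‖v ω‖ ^ p)
  · exact Eventually.of_forall fun S => (Psi_int hp hv hi S).aestronglyMeasurable
  · filter_upwards [Metric.ball_mem_nhds T one_pos] with S hS
    refine ae_of_all _ fun ω => ?_
    rw [Real.norm_of_nonneg (by positivity), ← Real.mul_rpow (by positivity) (norm_nonneg _)]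
    apply Real.rpow_le_rpow (norm_nonneg _) _ hp
    refine (S.le_opNorm _).trans ?_
    have h1 : ‖S‖ ≤ ‖T‖ + 1 := by
      have h2 : ‖S - T‖ < 1 := by simpa [dist_eq_norm] using hS
      have h3 : ‖S‖ ≤ ‖T‖ + ‖S - T‖ := by
        calc ‖S‖ = ‖T + (S - T)‖ := by rw [add_sub_cancel]
          _ ≤ _ := norm_add_le _ _
      linarith
    gcongr
  · exact hi.const_mul _
  · refine ae_of_all _ fun ω => ?_
    apply ContinuousAt.rpow_const _ (Or.inr hp)
    apply ContinuousAt.norm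
    exact (continuous_id.clm_apply continuous_const).continuousAt

lemma Psi_smul {p : ℝ} {v : Ω → E} (l : ℝ) (hl : 0 ≤ l) (T : E →L[ℂ] E) :
    Psi μ p v ((l : ℂ) • T) = l ^ p * Psi μ p v T := by
  unfold Psi
  rw [← integral_const_mul]
  congr 1
  ext ω
  rw [_root_.smul_apply, norm_smul, Complex.norm_real, Real.norm_of_nonneg hl,
    Real.mul_rpow hl (norm_nonneg _)]

/-- the rank one perturbation of the identity -/
noncomputable def St (t : ℝ) (z : E) : E →L[ℂ] E :=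
  ContinuousLinearMap.id ℂ E + (innerSL ℂ z).smulRight ((t : ℂ) • z)

lemma St_apply (t : ℝ) (z w : E) : St t z w = w + ((t : ℂ) * ⟪z, w⟫_ℂ) • z := by
  unfold St
  simp only [_root_.add_apply, ContinuousLinearMap.id_apply,
    ContinuousLinearMap.smulRight_apply, innerSL_apply_apply, smul_smul]
  rw [mul_comm]

lemma St_det (t : ℝ) (z : E) : (St t z).det = 1 + (t : ℂ) * (‖z‖ ^ 2 : ℝ) := by
  have h1 : ((St t z : E →L[ℂ] E) : E →ₗ[ℂ] E) =
      LinearMap.transvection (innerSL ℂ z : E →ₗ[ℂ] ℂ) ((t : ℂ) • z) := by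
    ext w
    rfl
  have h2 : (St t z).det = LinearMap.det ((St t z : E →L[ℂ] E) : E →ₗ[ℂ] E) := rfl
  rw [h2, h1, LinearMap.transvection.det]
  congr 1
  have h3 : ((innerSL ℂ z : E →L[ℂ] ℂ) : E →ₗ[ℂ] ℂ) ((t : ℂ) • z) = ⟪z, (t : ℂ) • z⟫_ℂ := rfl
  rw [h3, inner_smul_right, inner_self_eq_norm_sq_to_K]
  push_cast
  rfl

lemma St_norm (t : ℝ) (z w : E) :
    ‖St t z w‖ ^ 2 = ‖w‖ ^ 2 + (2 * t + t ^ 2 * ‖z‖ ^ 2) * ‖⟪z, w⟫_ℂ‖ ^ 2 := by
  rw [St_apply, @norm_add_sq ℂ, norm_smul, inner_smul_right]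
  have h1 : ⟪w, z⟫_ℂ = (starRingEnd ℂ) ⟪z, w⟫_ℂ := (inner_conj_symm _ _).symm
  rw [h1, norm_mul, Complex.norm_real, mul_pow, mul_pow, mul_assoc (t : ℂ), Complex.mul_conj,
    Complex.normSq_eq_norm_sq]
  have h2 : RCLike.re ((t : ℂ) * ((‖⟪z, w⟫_ℂ‖ ^ 2 : ℝ) : ℂ)) = t * ‖⟪z, w⟫_ℂ‖ ^ 2 := by
    rw [← Complex.ofReal_mul]
    exact Complex.ofReal_re _
  rw [h2, Real.norm_eq_abs, sq_abs]
  ring

/-- **The change of density theorem of Lewis.** -/
theorem lewis [Nontrivial E] (p : ℝ) (hp : 2 < p) {v : Ω → E} (hv : StronglyMeasurable v)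
    (hi : Integrable (fun ω => ‖v ω‖ ^ p) μ) (c : ℝ) (hc : 0 < c)
    (hco : ∀ T : E →L[ℂ] E, c * ‖T‖ ^ p ≤ Psi μ p v T) :
    ∃ T : E →L[ℂ] E, T.det ≠ 0 ∧ Psi μ p v T ≤ 1 ∧
      ∀ z : E, ‖z‖ ^ p ≤ (Module.finrank ℂ E : ℝ) ^ (p / 2) * ∫ ω, ‖⟪z, T (v ω)⟫_ℂ‖ ^ p ∂μ := by
  have hp0 : 0 < p := by linarith
  set n : ℕ := Module.finrank ℂ E with hn
  have hn0 : 0 < n := Module.finrank_pos
  have hnR : (0 : ℝ) < n := by exact_mod_cast hn0
  -- the compact set
  set K : Set (E →L[ℂ] E) := {T | Psi μ p v T ≤ 1} with hK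
  have hKc : IsClosed K := isClosed_le (Psi_cont hp0.le hv hi) continuous_const
  have hKb : Bornology.IsBounded K := by
    refine (Metric.isBounded_closedBall (x := (0 : E →L[ℂ] E)) (r := (1 / c) ^ (1 / p))).subset ?_
    intro T hT
    rw [mem_closedBall_zero_iff]
    have h1 : ‖T‖ ^ p ≤ 1 / c := by
      rw [le_div_iff₀ hc, mul_comm]
      exact (hco T).trans hT
    calc ‖T‖ = (‖T‖ ^ p) ^ (1 / p) := by
          rw [← Real.rpow_mul (norm_nonneg _), mul_one_div_cancel hp0.ne', Real.rpow_one]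
      _ ≤ (1 / c) ^ (1 / p) := Real.rpow_le_rpow (by positivity) h1 (by positivity)
  have : ProperSpace (E →L[ℂ] E) := FiniteDimensional.proper ℂ _
  have hKcomp : IsCompact K := Metric.isCompact_of_isClosed_isBounded hKc hKb
  -- a nonzero element
  set V : ℝ := ∫ ω, ‖v ω‖ ^ p ∂μ with hV
  have hV0 : 0 ≤ V := integral_nonneg fun ω => by positivity
  set δ : ℝ := (1 + V) ^ (-(1 / p)) with hδ
  have hδ0 : 0 < δ := by positivity
  have hδp : δ ^ p = (1 + V)⁻¹ := by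
    rw [hδ, ← Real.rpow_mul (by positivity), show -(1 / p) * p = -1 by field_simp,
      Real.rpow_neg_one]
  have hid : ((δ : ℂ) • ContinuousLinearMap.id ℂ E) ∈ K := by
    rw [hK, mem_ofPred_eq, Psi_smul δ hδ0.le, hδp]
    have h1 : Psi μ p v (ContinuousLinearMap.id ℂ E) = V := rfl
    rw [h1, inv_mul_le_iff₀ (by positivity)]
    linarith
  have hdet_smul : ∀ (l : ℝ) (T : E →L[ℂ] E), 0 ≤ l → ‖((l : ℂ) • T).det‖ = l ^ n * ‖T.det‖ := by
    intro l T hl
    have h1 : ((l : ℂ) • T).det = LinearMap.det ((l : ℂ) • (T : E →ₗ[ℂ] E)) := rfl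
    rw [h1, LinearMap.det_smul, norm_mul, norm_pow, Complex.norm_real, Real.norm_of_nonneg hl]
  obtain ⟨T0, hT0K, hT0⟩ := hKcomp.exists_isMaxOn ⟨_, hid⟩
    (ContinuousLinearMap.continuous_det (𝕜 := ℂ) (E := E)).norm.continuousOn
  have hmax : ∀ T ∈ K, ‖T.det‖ ≤ ‖T0.det‖ := fun T hT => hT0 hT
  have hd0 : 0 < ‖T0.det‖ := by
    refine lt_of_lt_of_le ?_ (hmax _ hid)
    rw [hdet_smul δ _ hδ0.le]
    have h1 : (ContinuousLinearMap.id ℂ E).det = 1 := LinearMap.det_id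
    rw [h1, norm_one, mul_one]
    positivity
  have hne : T0.det ≠ 0 := norm_pos_iff.1 hd0
  -- scaling
  have hscale : ∀ T : E →L[ℂ] E, T.det ≠ 0 →
      ‖T.det‖ ^ p ≤ ‖T0.det‖ ^ p * Psi μ p v T ^ n ∧ 0 < Psi μ p v T := by
    intro T hT
    have hTn : T ≠ 0 := by
      intro h
      rw [h] at hT
      apply hT
      have h1 : (0 : E →L[ℂ] E).det = LinearMap.det (0 : E →ₗ[ℂ] E) := rfl
      rw [h1, LinearMap.det_zero, ← hn, zero_pow hn0.ne']
    have hP : 0 < Psi μ p v T := by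
      refine lt_of_lt_of_le ?_ (hco T)
      have : 0 < ‖T‖ := norm_pos_iff.2 hTn
      positivity
    refine ⟨?_, hP⟩
    set l : ℝ := Psi μ p v T ^ (-(1 / p)) with hl
    have hl0 : 0 < l := Real.rpow_pos_of_pos hP _
    have hlp : l ^ p = (Psi μ p v T)⁻¹ := by
      rw [hl, ← Real.rpow_mul hP.le, show -(1 / p) * p = -1 by field_simp, Real.rpow_neg_one]
    have hmem : ((l : ℂ) • T) ∈ K := by
      rw [hK, mem_ofPred_eq, Psi_smul l hl0.le, hlp, inv_mul_cancel₀ hP.ne']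
    have h1 := hmax _ hmem
    rw [hdet_smul l T hl0.le] at h1
    have h2 : (l ^ n * ‖T.det‖) ^ p ≤ ‖T0.det‖ ^ p :=
      Real.rpow_le_rpow (by positivity) h1 hp0.le
    rw [Real.mul_rpow (by positivity) (norm_nonneg _)] at h2
    have h3 : (l ^ n) ^ p = (Psi μ p v T ^ n)⁻¹ := by
      rw [← Real.rpow_natCast, ← Real.rpow_mul hl0.le, mul_comm, Real.rpow_mul hl0.le, hlp,
        Real.rpow_natCast, inv_pow]
    rw [h3, inv_mul_le_iff₀ (by positivity)] at h2
    linarith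
  refine ⟨T0, hne, hT0K, ?_⟩
  intro z
  set Z : ℝ := ‖z‖ ^ 2 with hZ
  have hZ0 : 0 ≤ Z := by positivity
  set w : Ω → E := fun ω => T0 (v ω) with hw
  have hwm : StronglyMeasurable w := T0.continuous.comp_stronglyMeasurable hv
  have hwi : Integrable (fun ω => ‖w ω‖ ^ p) μ := Psi_int hp0.le hv hi T0
  have hin : ∀ ω, ‖⟪z, w ω⟫_ℂ‖ ≤ ‖z‖ * ‖w ω‖ := fun ω => norm_inner_le_norm _ _
  have hinm : StronglyMeasurable fun ω => ⟪z, w ω⟫_ℂ := stronglyMeasurable_const.inner hwm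
  have hQi : Integrable (fun ω => ‖⟪z, w ω⟫_ℂ‖ ^ p) μ := by
    refine (hwi.const_mul (‖z‖ ^ p)).mono' ?_ (ae_of_all _ fun ω => ?_)
    · exact (hinm.norm.measurable.pow_const p).aestronglyMeasurable
    · rw [Real.norm_of_nonneg (by positivity), ← Real.mul_rpow (norm_nonneg _) (norm_nonneg _)]
      exact Real.rpow_le_rpow (norm_nonneg _) (hin ω) hp0.le
  have hDm : StronglyMeasurable fun ω => ‖w ω‖ ^ (p - 2) * ‖⟪z, w ω⟫_ℂ‖ ^ 2 :=
    ((hwm.norm.measurable.pow_const (p - 2)).mul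
      (hinm.norm.measurable.pow_const 2)).stronglyMeasurable
  have hsplit : ∀ ω, ‖w ω‖ ^ (p - 2) * ‖w ω‖ ^ 2 = ‖w ω‖ ^ p := by
    intro ω
    rw [← Real.rpow_natCast, ← Real.rpow_add_of_nonneg (norm_nonneg _) (by linarith) (by norm_num)]
    congr 1
    push_cast
    ring
  have hDle : ∀ ω, ‖w ω‖ ^ (p - 2) * ‖⟪z, w ω⟫_ℂ‖ ^ 2 ≤ Z * ‖w ω‖ ^ p := by
    intro ω
    calc ‖w ω‖ ^ (p - 2) * ‖⟪z, w ω⟫_ℂ‖ ^ 2 ≤ ‖w ω‖ ^ (p - 2) * (‖z‖ * ‖w ω‖) ^ 2 := by
          gcongr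
          exact hin ω
      _ = Z * (‖w ω‖ ^ (p - 2) * ‖w ω‖ ^ 2) := by
          rw [hZ]
          ring
      _ = _ := by rw [hsplit]
  have hDi : Integrable (fun ω => ‖w ω‖ ^ (p - 2) * ‖⟪z, w ω⟫_ℂ‖ ^ 2) μ := by
    refine (hwi.const_mul Z).mono' hDm.aestronglyMeasurable (ae_of_all _ fun ω => ?_)
    rw [Real.norm_of_nonneg (by positivity)]
    exact hDle ω
  set D : ℝ := ∫ ω, ‖w ω‖ ^ (p - 2) * ‖⟪z, w ω⟫_ℂ‖ ^ 2 ∂μ with hD
  -- the first order condition
  have key : Z ≤ n * D := by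
    apply deriv_bound hp0
    intro t ht
    set α : ℝ := 2 * t + t ^ 2 * Z with hα
    have hα0 : 0 ≤ α := by positivity
    set T : E →L[ℂ] E := (St t z).comp T0 with hT
    have hdet : T.det = (1 + (t : ℂ) * (Z : ℝ)) * T0.det := by
      have h1 : T.det = LinearMap.det (((St t z : E →L[ℂ] E) : E →ₗ[ℂ] E) ∘ₗ (T0 : E →ₗ[ℂ] E)) :=
        rfl
      rw [h1, LinearMap.det_comp]
      have h2 := St_det t z
      have h3 : (St t z).det = LinearMap.det ((St t z : E →L[ℂ] E) : E →ₗ[ℂ] E) := rfl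
      rw [← h3, h2]
    have hfac : ‖(1 + (t : ℂ) * (Z : ℝ))‖ = 1 + t * Z := by
      rw [← Complex.ofReal_mul, ← Complex.ofReal_one, ← Complex.ofReal_add, Complex.norm_real,
        Real.norm_of_nonneg (by positivity)]
    have hdn : ‖T.det‖ = (1 + t * Z) * ‖T0.det‖ := by rw [hdet, norm_mul, hfac]
    have hTne : T.det ≠ 0 := by
      rw [← norm_pos_iff, hdn]
      positivity
    obtain ⟨h1, hPT⟩ := hscale T hTne
    rw [hdn, Real.mul_rpow (by positivity) (norm_nonneg _), mul_comm] at h1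
    have h2 : (1 + t * Z) ^ p ≤ Psi μ p v T ^ n :=
      le_of_mul_le_mul_left h1 (Real.rpow_pos_of_pos hd0 p)
    refine h2.trans ?_
    apply pow_le_pow_left₀ hPT.le
    have hpt : ∀ ω, ‖T (v ω)‖ ^ p ≤ ‖w ω‖ ^ p + p / 2 * α * ((1 + α * Z) ^ (p / 2 - 1) *
        (‖w ω‖ ^ (p - 2) * ‖⟪z, w ω⟫_ℂ‖ ^ 2)) := by
      intro ω
      have e1 : ‖T (v ω)‖ ^ 2 = ‖w ω‖ ^ 2 + α * ‖⟪z, w ω⟫_ℂ‖ ^ 2 := St_norm t z (w ω)
      have e2 : ‖T (v ω)‖ ^ p = (‖T (v ω)‖ ^ 2) ^ (p / 2) := by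
        rw [← Real.rpow_natCast, ← Real.rpow_mul (norm_nonneg _)]
        congr 1
        push_cast
        ring
      have e3 : ‖w ω‖ ^ p = (‖w ω‖ ^ 2) ^ (p / 2) := by
        rw [← Real.rpow_natCast, ← Real.rpow_mul (norm_nonneg _)]
        congr 1
        push_cast
        ring
      have e4 : ‖w ω‖ ^ (p - 2) = (‖w ω‖ ^ 2) ^ (p / 2 - 1) := by
        rw [← Real.rpow_natCast, ← Real.rpow_mul (norm_nonneg _)]
        congr 1
        push_cast
        ring
      rw [e2, e1, e3, e4]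
      have e5 : α * ‖⟪z, w ω⟫_ℂ‖ ^ 2 ≤ (α * Z) * ‖w ω‖ ^ 2 := by
        rw [mul_assoc]
        apply mul_le_mul_of_nonneg_left _ hα0
        calc ‖⟪z, w ω⟫_ℂ‖ ^ 2 ≤ (‖z‖ * ‖w ω‖) ^ 2 := by
              gcongr
              exact hin ω
          _ = Z * ‖w ω‖ ^ 2 := by
              rw [hZ]
              ring
      have e6 := pow_bound (s := p / 2) (by linarith) (by positivity : 0 ≤ ‖w ω‖ ^ 2)
        (by positivity : 0 ≤ α * ‖⟪z, w ω⟫_ℂ‖ ^ 2) (by positivity : 0 ≤ α * Z) e5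
      refine e6.trans (le_of_eq ?_)
      ring
    calc Psi μ p v T ≤ ∫ ω, (‖w ω‖ ^ p + p / 2 * α * ((1 + α * Z) ^ (p / 2 - 1) *
          (‖w ω‖ ^ (p - 2) * ‖⟪z, w ω⟫_ℂ‖ ^ 2))) ∂μ := by
          apply integral_mono (Psi_int hp0.le hv hi T) _ hpt
          exact hwi.add ((hDi.const_mul _).const_mul _)
      _ = Psi μ p v T0 + p / 2 * α * ((1 + α * Z) ^ (p / 2 - 1) * D) := by
          rw [integral_add hwi ((hDi.const_mul _).const_mul _), integral_const_mul,
            integral_const_mul]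
          rfl
      _ ≤ 1 + p / 2 * α * ((1 + α * Z) ^ (p / 2 - 1) * D) := by
          have : Psi μ p v T0 ≤ 1 := hT0K
          linarith
  -- Hölder
  set Q : ℝ := ∫ ω, ‖⟪z, w ω⟫_ℂ‖ ^ p ∂μ with hQ
  have hQ0 : 0 ≤ Q := integral_nonneg fun ω => by positivity
  have hD2 : D ≤ Q ^ (2 / p) := by
    have hp2 : 0 < p - 2 := by linarith
    have hpq : (p / (p - 2)).HolderConjugate (p / 2) := by
      rw [Real.holderConjugate_iff]
      constructor
      · rw [one_lt_div hp2]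
        linarith
      · field_simp
        ring
    have m1 : MemLp (fun ω => ‖w ω‖ ^ (p - 2)) (ENNReal.ofReal (p / (p - 2))) μ := by
      rw [← integrable_norm_rpow_iff (hwm.norm.measurable.pow_const _).aestronglyMeasurable
        (by simpa using div_pos hp0 hp2) ENNReal.ofReal_ne_top]
      refine hwi.congr (ae_of_all _ fun ω => ?_)
      simp only
      rw [ENNReal.toReal_ofReal (by positivity), Real.norm_of_nonneg (by positivity),
        ← Real.rpow_mul (norm_nonneg _)]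
      congr 1
      field_simp
    have m2 : MemLp (fun ω => ‖⟪z, w ω⟫_ℂ‖ ^ 2) (ENNReal.ofReal (p / 2)) μ := by
      rw [← integrable_norm_rpow_iff (hinm.norm.measurable.pow_const _).aestronglyMeasurable
        (by simpa using hp0) ENNReal.ofReal_ne_top]
      refine hQi.congr (ae_of_all _ fun ω => ?_)
      simp only
      rw [ENNReal.toReal_ofReal (by positivity), Real.norm_of_nonneg (by positivity),
        ← Real.rpow_natCast, ← Real.rpow_mul (norm_nonneg _)]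
      congr 1
      push_cast
      field_simp
    have h1 := integral_mul_le_Lp_mul_Lq_of_nonneg hpq (ae_of_all _ fun ω => by positivity)
      (ae_of_all _ fun ω => by positivity) m1 m2
    have e1 : ∀ ω, (‖w ω‖ ^ (p - 2)) ^ (p / (p - 2)) = ‖w ω‖ ^ p := by
      intro ω
      rw [← Real.rpow_mul (norm_nonneg _)]
      congr 1
      field_simp
    have e2 : ∀ ω, (‖⟪z, w ω⟫_ℂ‖ ^ 2) ^ (p / 2) = ‖⟪z, w ω⟫_ℂ‖ ^ p := by
      intro ω
      rw [← Real.rpow_natCast, ← Real.rpow_mul (norm_nonneg _)]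
      congr 1
      push_cast
      field_simp
    simp only [e1, e2] at h1
    have e3 : (∫ ω, ‖w ω‖ ^ p ∂μ) ^ (1 / (p / (p - 2))) ≤ 1 := by
      apply Real.rpow_le_one (integral_nonneg fun ω => by positivity) hT0K
      positivity
    have e4 : (1 : ℝ) / (p / 2) = 2 / p := by field_simp
    rw [e4] at h1
    refine h1.trans ?_
    calc (∫ ω, ‖w ω‖ ^ p ∂μ) ^ (1 / (p / (p - 2))) * Q ^ (2 / p) ≤ 1 * Q ^ (2 / p) := by
          gcongr
      _ = _ := one_mul _
  calc ‖z‖ ^ p = Z ^ (p / 2) := by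
        rw [hZ, ← Real.rpow_natCast, ← Real.rpow_mul (norm_nonneg _)]
        congr 1
        push_cast
        ring
    _ ≤ (n * Q ^ (2 / p)) ^ (p / 2) := by
        apply Real.rpow_le_rpow hZ0 _ (by positivity)
        exact key.trans (mul_le_mul_of_nonneg_left hD2 hnR.le)
    _ = (n : ℝ) ^ (p / 2) * Q := by
        rw [Real.mul_rpow hnR.le (by positivity), ← Real.rpow_mul hQ0,
          show 2 / p * (p / 2) = 1 by field_simp, Real.rpow_one]

end Pool.Agent.Q85.LR
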