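import Mathlib
import Pool.Agent.Q85.LR.A
set_option autoImplicit false
set_option linter.unusedSectionVars false

/-! Factorization of kernels of finite rank through a Hilbert space. -/

namespace Pool.Agent.Q85.LR

open MeasureTheory Set Filter Topology
open scoped ENNReal NNReal InnerProductSpace

/-- the space -/
abbrev EU (r : ℕ) : Type := EuclideanSpace ℂ (Fin r)

/-- the basis -/
noncomputable def eb {r : ℕ} (i : Fin r) : EU r := EuclideanSpace.single i 1

lemma eb_norm {r : ℕ} (i : Fin r) : ‖(eb i : EU r)‖ = 1 := by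
  unfold eb
  rw [PiLp.norm_single, norm_one]

/-- the norm of an operator is bounded by its values on the basis -/
lemma op_le {r : ℕ} (T : EU r →L[ℂ] EU r) : ‖T‖ ≤ ∑ i, ‖T (eb i)‖ := by
  apply ContinuousLinearMap.opNorm_le_bound _ (Finset.sum_nonneg fun i _ => norm_nonneg _)
  intro x
  have h1 : x = ∑ i, x i • (eb i : EU r) := by
    ext j
    simp only [eb]
    rw [WithLp.ofLp_sum, Finset.sum_apply, Finset.sum_eq_single j]
    · simp
    · intro i _ hij
      simp [hij.symm]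
    · intro h
      exact absurd (Finset.mem_univ j) h
  calc ‖T x‖ = ‖∑ i, x i • T (eb i)‖ := by
        conv_lhs => rw [h1]
        rw [map_sum]
        simp only [map_smul]
    _ ≤ ∑ i, ‖x i • T (eb i)‖ := norm_sum_le _ _
    _ ≤ ∑ i, ‖x‖ * ‖T (eb i)‖ := by
        apply Finset.sum_le_sum
        intro i _
        rw [norm_smul]
        gcongr
        exact PiLp.norm_apply_le x i
    _ = (∑ i, ‖T (eb i)‖) * ‖x‖ := by
        rw [← Finset.mul_sum, mul_comm]

lemma op_le_pow {r : ℕ} (hr : 0 < r) {p : ℝ} (hp : 0 < p) (T : EU r →L[ℂ] EU r) :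
    ‖T‖ ^ p ≤ (r : ℝ) ^ p * ∑ i, ‖T (eb i)‖ ^ p := by
  have : Nonempty (Fin r) := ⟨⟨0, hr⟩⟩
  obtain ⟨j, _, hj⟩ := Finset.exists_max_image Finset.univ (fun i : Fin r => ‖T (eb i)‖)
    Finset.univ_nonempty
  have h1 : ‖T‖ ≤ r * ‖T (eb j)‖ := by
    refine (op_le T).trans ?_
    calc ∑ i, ‖T (eb i)‖ ≤ ∑ _i : Fin r, ‖T (eb j)‖ := Finset.sum_le_sum fun i hi => hj i hi
      _ = r * ‖T (eb j)‖ := by simp
  calc ‖T‖ ^ p ≤ (r * ‖T (eb j)‖) ^ p := Real.rpow_le_rpow (norm_nonneg _) h1 hp.le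
    _ = (r : ℝ) ^ p * ‖T (eb j)‖ ^ p := Real.mul_rpow (by positivity) (norm_nonneg _)
    _ ≤ _ := by
        gcongr
        exact Finset.single_le_sum (f := fun i => ‖T (eb i)‖ ^ p) (fun i _ => by positivity)
          (Finset.mem_univ j)

variable {X : Type*} [MeasurableSpace X] (μ : Measure X)

/-- the measure with atoms -/
noncomputable def mA (r : ℕ) (e : ℝ) : Measure (X ⊕ Fin r) :=
  μ.map Sum.inl + (ENNReal.ofReal e) • ((Measure.count : Measure (Fin r)).map Sum.inr)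

lemma mA_int {r : ℕ} {e : ℝ} {F : X ⊕ Fin r → ℝ} (hF : StronglyMeasurable F)
    (hi : Integrable (fun x => F (Sum.inl x)) μ) : Integrable F (mA μ r e) := by
  unfold mA
  apply Integrable.add_measure
  · rw [integrable_map_measure hF.aestronglyMeasurable measurable_inl.aemeasurable]
    exact hi
  · apply Integrable.smul_measure _ ENNReal.ofReal_ne_top
    rw [integrable_map_measure hF.aestronglyMeasurable measurable_inr.aemeasurable]
    exact Integrable.of_finite

lemma mA_integral {r : ℕ} {e : ℝ} (he : 0 ≤ e) {F : X ⊕ Fin r → ℝ} (hF : StronglyMeasurable F)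
    (hi : Integrable (fun x => F (Sum.inl x)) μ) :
    ∫ ω, F ω ∂(mA μ r e) = ∫ x, F (Sum.inl x) ∂μ + e * ∑ i, F (Sum.inr i) := by
  unfold mA
  rw [integral_add_measure, integral_smul_measure,
    integral_map measurable_inl.aemeasurable hF.aestronglyMeasurable,
    integral_map measurable_inr.aemeasurable hF.aestronglyMeasurable, integral_count,
    ENNReal.toReal_ofReal he, smul_eq_mul]
  · rw [integrable_map_measure hF.aestronglyMeasurable measurable_inl.aemeasurable]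
    exact hi
  · apply Integrable.smul_measure _ ENNReal.ofReal_ne_top
    rw [integrable_map_measure hF.aestronglyMeasurable measurable_inr.aemeasurable]
    exact Integrable.of_finite

lemma lint_of_int {f : X → ℝ} (hf : Integrable f μ) (h0 : ∀ x, 0 ≤ f x) :
    ∫⁻ x, ENNReal.ofReal (f x) ∂μ = ENNReal.ofReal (∫ x, f x ∂μ) :=
  (ofReal_integral_eq_lintegral_ofReal hf (ae_of_all _ h0)).symm

lemma enorm_rpow' {F : Type*} [NormedAddCommGroup F] (z : F) {p : ℝ} (hp : 0 ≤ p) :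
    ‖z‖ₑ ^ p = ENNReal.ofReal (‖z‖ ^ p) := by
  rw [← ofReal_norm, ENNReal.ofReal_rpow_of_nonneg (norm_nonneg _) hp]

/-- **Factorization.** -/
theorem factor {r : ℕ} (hr : 0 < r) (p : ℝ) (hp : 2 < p) {u v : X → EU r}
    (hu : StronglyMeasurable u) (hv : StronglyMeasurable v)
    (hui : Integrable (fun x => ‖u x‖ ^ p) μ) (hvi : Integrable (fun x => ‖v x‖ ^ p) μ)
    (ε : ℝ) (hε : 0 < ε) : ∃ a b : X → EU r, StronglyMeasurable a ∧ StronglyMeasurable b ∧
      (∀ x y, ⟪a x, b y⟫_ℂ = ⟪u x, v y⟫_ℂ) ∧ ∫⁻ y, ‖b y‖ₑ ^ p ∂μ ≤ 1 ∧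
      ∫⁻ x, ‖a x‖ₑ ^ p ∂μ ≤ ENNReal.ofReal ((r : ℝ) ^ (p / 2)) *
        (∫⁻ x, ∫⁻ y, ‖⟪u x, v y⟫_ℂ‖ₑ ^ p ∂μ ∂μ + ENNReal.ofReal ε) := by
  have hp0 : 0 < p := by linarith
  have : Nonempty (Fin r) := ⟨⟨0, hr⟩⟩
  have hrR : (0 : ℝ) < r := by exact_mod_cast hr
  set U : ℝ := ∫ x, ‖u x‖ ^ p ∂μ with hU
  have hU0 : 0 ≤ U := integral_nonneg fun x => by positivity
  set e : ℝ := ε / (r * (1 + U)) with he
  have he0 : 0 < e := by positivity
  have heU : e * r * U ≤ ε := by
    rw [he, div_mul_eq_mul_div, div_mul_eq_mul_div, div_le_iff₀ (by positivity)]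
    nlinarith [mul_nonneg hε.le hrR.le]
  set V : X ⊕ Fin r → EU r := Sum.elim v eb with hV
  have hVm : StronglyMeasurable V := by
    apply Measurable.stronglyMeasurable
    exact Measurable.sumElim hv.measurable (measurable_of_countable _)
  have hVi : Integrable (fun ω => ‖V ω‖ ^ p) (mA μ r e) := by
    apply mA_int
    · exact (hVm.norm.measurable.pow_const p).stronglyMeasurable
    · exact hvi
  have hPsi : ∀ T : EU r →L[ℂ] EU r, Psi (mA μ r e) p V T =
      ∫ y, ‖T (v y)‖ ^ p ∂μ + e * ∑ i, ‖T (eb i)‖ ^ p := by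
    intro T
    unfold Psi
    rw [mA_integral μ he0.le]
    · rfl
    · exact (((T.continuous.comp_stronglyMeasurable hVm).norm.measurable).pow_const
        p).stronglyMeasurable
    · exact Psi_int hp0.le hv hvi T
  have hfr : Module.finrank ℂ (EU r) = r := by simp
  obtain ⟨T, hdet, hT1, hT⟩ := lewis (μ := mA μ r e) p hp hVm hVi (e / (r : ℝ) ^ p)
    (by positivity) (by
      intro T
      rw [hPsi, div_mul_eq_mul_div, div_le_iff₀ (by positivity)]
      have h1 := op_le_pow hr hp0 T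
      have h2 : 0 ≤ ∫ y, ‖T (v y)‖ ^ p ∂μ := integral_nonneg fun y => by positivity
      have h3 : e * ‖T‖ ^ p ≤ e * ((r : ℝ) ^ p * ∑ i, ‖T (eb i)‖ ^ p) :=
        mul_le_mul_of_nonneg_left h1 he0.le
      have h4 : 0 ≤ (∫ y, ‖T (v y)‖ ^ p ∂μ) * (r : ℝ) ^ p := by positivity
      linarith)
  rw [hfr] at hT
  rw [hPsi] at hT1
  set Te := T.toContinuousLinearEquivOfDetNeZero hdet with hTe
  have hTa : ∀ x, Te x = T x := fun x =>
    ContinuousLinearMap.toContinuousLinearEquivOfDetNeZero_apply T hdet x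
  set S : EU r →L[ℂ] EU r := (Te.symm : EU r →L[ℂ] EU r) with hS
  have hST : ∀ x, S (T x) = x := by
    intro x
    rw [← hTa, hS]
    exact Te.symm_apply_apply x
  set a : X → EU r := fun x => ContinuousLinearMap.adjoint S (u x) with ha
  set b : X → EU r := fun y => T (v y) with hb
  have hin : ∀ x (w : EU r), ⟪a x, T w⟫_ℂ = ⟪u x, w⟫_ℂ := by
    intro x w
    rw [ha]
    simp only
    rw [ContinuousLinearMap.adjoint_inner_left, hST]
  refine ⟨a, b, (ContinuousLinearMap.continuous _).comp_stronglyMeasurable hu,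
    T.continuous.comp_stronglyMeasurable hv, fun x y => hin x (v y), ?_, ?_⟩
  · simp only [enorm_rpow' _ hp0.le]
    rw [lint_of_int μ (Psi_int hp0.le hv hvi T) fun y => by positivity]
    rw [ENNReal.ofReal_le_one]
    have h1 : 0 ≤ e * ∑ i, ‖T (eb i)‖ ^ p := by positivity
    linarith
  · -- the bound of `a`
    have hpt : ∀ x, ‖a x‖ₑ ^ p ≤ ENNReal.ofReal ((r : ℝ) ^ (p / 2)) *
        (∫⁻ y, ‖⟪u x, v y⟫_ℂ‖ₑ ^ p ∂μ + ENNReal.ofReal (e * r) * ‖u x‖ₑ ^ p) := by
      intro x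
      have hm : StronglyMeasurable fun ω => ⟪a x, T (V ω)⟫_ℂ :=
        stronglyMeasurable_const.inner (T.continuous.comp_stronglyMeasurable hVm)
      have hyi : Integrable (fun y => ‖⟪u x, v y⟫_ℂ‖ ^ p) μ := by
        refine (hvi.const_mul (‖u x‖ ^ p)).mono' ?_ (ae_of_all _ fun y => ?_)
        · exact ((stronglyMeasurable_const.inner hv).norm.measurable.pow_const
            p).aestronglyMeasurable
        · rw [Real.norm_of_nonneg (by positivity), ← Real.mul_rpow (norm_nonneg _) (norm_nonneg _)]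
          exact Real.rpow_le_rpow (norm_nonneg _) (norm_inner_le_norm _ _) hp0.le
      have h1 := hT (a x)
      rw [mA_integral μ he0.le (hm.norm.measurable.pow_const p).stronglyMeasurable] at h1
      · have h2 : ∀ y, ‖⟪a x, T (V (Sum.inl y))⟫_ℂ‖ ^ p = ‖⟪u x, v y⟫_ℂ‖ ^ p := by
          intro y
          rw [hin]
          rfl
        have h3 : ∀ i, ‖⟪a x, T (V (Sum.inr i))⟫_ℂ‖ ^ p ≤ ‖u x‖ ^ p := by
          intro i
          rw [hin]
          apply Real.rpow_le_rpow (norm_nonneg _) _ hp0.le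
          have h4 : ‖⟪u x, V (Sum.inr i)⟫_ℂ‖ ≤ ‖u x‖ * ‖(eb i : EU r)‖ := norm_inner_le_norm _ _
          rwa [eb_norm, mul_one] at h4
        simp only [h2] at h1
        have h5 : e * ∑ i, ‖⟪a x, T (V (Sum.inr i))⟫_ℂ‖ ^ p ≤ e * r * ‖u x‖ ^ p := by
          rw [mul_assoc]
          apply mul_le_mul_of_nonneg_left _ he0.le
          calc ∑ i, ‖⟪a x, T (V (Sum.inr i))⟫_ℂ‖ ^ p ≤ ∑ _i : Fin r, ‖u x‖ ^ p :=
                Finset.sum_le_sum fun i _ => h3 i
            _ = _ := by simp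
        have h6 : ‖a x‖ ^ p ≤ (r : ℝ) ^ (p / 2) *
            (∫ y, ‖⟪u x, v y⟫_ℂ‖ ^ p ∂μ + e * r * ‖u x‖ ^ p) := by
          refine h1.trans ?_
          gcongr
        rw [enorm_rpow' _ hp0.le]
        refine (ENNReal.ofReal_le_ofReal h6).trans (le_of_eq ?_)
        rw [ENNReal.ofReal_mul (by positivity), ENNReal.ofReal_add
          (integral_nonneg fun y => by positivity) (by positivity),
          ENNReal.ofReal_mul (by positivity)]
        simp only [enorm_rpow' _ hp0.le]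
        rw [lint_of_int μ hyi fun y => by positivity]
      · refine hyi.congr (ae_of_all _ fun y => ?_)
        simp only
        rw [hin]
        rfl
    calc ∫⁻ x, ‖a x‖ₑ ^ p ∂μ ≤ ∫⁻ x, ENNReal.ofReal ((r : ℝ) ^ (p / 2)) *
          (∫⁻ y, ‖⟪u x, v y⟫_ℂ‖ₑ ^ p ∂μ + ENNReal.ofReal (e * r) * ‖u x‖ₑ ^ p) ∂μ :=
          lintegral_mono hpt
      _ = ENNReal.ofReal ((r : ℝ) ^ (p / 2)) * (∫⁻ x, ∫⁻ y, ‖⟪u x, v y⟫_ℂ‖ₑ ^ p ∂μ ∂μ +
          ENNReal.ofReal (e * r) * ∫⁻ x, ‖u x‖ₑ ^ p ∂μ) := by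
          rw [lintegral_const_mul' _ _ ENNReal.ofReal_ne_top, lintegral_add_right _
            ((hu.enorm.pow_const p).const_mul _), lintegral_const_mul' _ _ ENNReal.ofReal_ne_top]
      _ ≤ _ := by
          gcongr
          simp only [enorm_rpow' _ hp0.le]
          rw [lint_of_int μ hui fun y => by positivity, ← ENNReal.ofReal_mul (by positivity)]
          exact ENNReal.ofReal_le_ofReal heU

end Pool.Agent.Q85.LR
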