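import Mathlib
import Pool.Agent.Y183.TS.D
import Pool.Agent.Q85.HL.G
set_option autoImplicit false
set_option linter.unusedSectionVars false

/-! The Tomas-Stein theorem for the extension operator in `ℝ³`. -/

namespace Pool.Agent.Q85.LR

open MeasureTheory Set Complex
open Pool.Agent.Q85.HL
open scoped ENNReal NNReal

/-- the extension operator in the other normalization -/
noncomputable def GG (h : ℝ × ℝ → ℂ) (y : (ℝ × ℝ) × ℝ) : ℂ :=
  ∫ x : ℝ × ℝ, h x * cexp (2 * Real.pi * I * ((ph x y : ℝ) : ℂ))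

lemma ph_smul (l : ℝ) (x : ℝ × ℝ) (y : (ℝ × ℝ) × ℝ) : ph x (l • y) = l * ph x y := by
  unfold ph
  simp only [Prod.smul_fst, Prod.smul_snd, smul_eq_mul]
  ring

lemma EP_GG (h : ℝ × ℝ → ℂ) (y : (ℝ × ℝ) × ℝ) : EP h y = GG h ((-(2 * Real.pi)⁻¹ : ℝ) • y) := by
  unfold EP GG
  congr 1
  ext x
  rw [ph_smul, mul_comm]
  congr 2
  have hpi : (Real.pi : ℂ) ≠ 0 := by exact_mod_cast Real.pi_ne_zero
  push_cast
  field_simp

lemma GG_cont {h : ℝ × ℝ → ℂ} (hh : Integrable h) : Continuous (GG h) := by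
  unfold GG
  apply continuous_of_dominated (bound := fun u => ‖h u‖)
  · intro y
    refine hh.aestronglyMeasurable.mul ?_
    apply Continuous.aestronglyMeasurable
    unfold ph
    fun_prop
  · intro y
    refine ae_of_all _ fun x => ?_
    rw [norm_mul, show 2 * (Real.pi : ℂ) * I * ((ph x y : ℝ) : ℂ) =
      ((2 * Real.pi * ph x y : ℝ) : ℂ) * I by push_cast; ring, norm_exp_ofReal_mul_I, mul_one]
  · exact hh.norm
  · refine ae_of_all _ fun x => ?_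
    unfold ph
    fun_prop

lemma em_two (y : Fin 2 → ℝ) (t : ℝ) (v : Fin 2 → ℝ) : Pool.Agent.W771.MD.em y t v =
    cexp (2 * Real.pi * I * ((ph (v 0, v 1) ((y 0, y 1), t) : ℝ) : ℂ)) := by
  unfold Pool.Agent.W771.MD.em Pool.Agent.W771.MD.qe ph
  rw [Fin.prod_univ_two, ← Complex.exp_add]
  congr 1
  push_cast
  ring

/-- **The Tomas-Stein theorem.** -/
theorem tomasP (q : ℝ) (hq : 4 < q) : ∃ C : ℝ≥0, ∀ h : ℝ × ℝ → ℂ, Measurable h →
    (∀ x : ℝ × ℝ, x ∉ Icc (-1 : ℝ) 1 ×ˢ Icc (-1 : ℝ) 1 → h x = 0) → ∀ K : ℝ≥0∞, K ≠ ⊤ →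
    ∫⁻ x, ‖h x‖ₑ ^ 2 ≤ K ^ 2 → ∫⁻ y, ‖EP h y‖ₑ ^ q ≤ (C * K) ^ q := by
  obtain ⟨C, hC⟩ := Pool.Agent.Y183.TS.tomas 2 (by norm_num) q (by push_cast; linarith)
  have hq0 : 0 < q := by linarith
  have hpi1 : (1 : ℝ) ≤ 2 * Real.pi := by linarith [Real.pi_gt_three]
  refine ⟨((2 * Real.pi) ^ 3).toNNReal * C, ?_⟩
  intro h hm h0 K hK hN
  have hcube : volume (Icc (-1 : ℝ) 1 ×ˢ Icc (-1 : ℝ) 1) ≠ ⊤ := by
    rw [Measure.volume_eq_prod, Measure.prod_prod, Real.volume_Icc]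
    exact ENNReal.mul_ne_top ENNReal.ofReal_ne_top ENNReal.ofReal_ne_top
  have hi : Integrable h := by
    have h2 : MemLp h 2 (volume.restrict (Icc (-1 : ℝ) 1 ×ˢ Icc (-1 : ℝ) 1)) := by
      refine ⟨hm.aestronglyMeasurable, ?_⟩
      rw [eLpNorm_lt_top_iff_lintegral_rpow_enorm_lt_top (by norm_num) (by norm_num)]
      have e1 : ∫⁻ x in Icc (-1 : ℝ) 1 ×ˢ Icc (-1 : ℝ) 1, ‖h x‖ₑ ^ (2 : ℝ≥0∞).toReal ≤ K ^ 2 := by
        refine le_trans (setLIntegral_le_lintegral _ _) ?_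
        simpa using hN
      exact lt_of_le_of_lt e1 (ENNReal.pow_lt_top (lt_top_iff_ne_top.2 hK))
    have hf : IsFiniteMeasure (volume.restrict (Icc (-1 : ℝ) 1 ×ˢ Icc (-1 : ℝ) 1)) := ⟨by
      rw [Measure.restrict_apply_univ]
      exact lt_top_iff_ne_top.2 hcube⟩
    have h3 : IntegrableOn h (Icc (-1 : ℝ) 1 ×ˢ Icc (-1 : ℝ) 1) := h2.integrable (by norm_num)
    rwa [integrableOn_iff_integrable_of_support_subset] at h3
    intro x hx
    by_contra hc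
    exact hx (h0 x hc)
  have hGm : Measurable fun y => ‖GG h y‖ₑ ^ q := (GG_cont hi).enorm.measurable.pow_const q
  -- the functions on `Fin 2 → ℝ`
  set H : (Fin 2 → ℝ) → ℂ := fun v => h (v 0, v 1) with hH
  have hHm : Measurable H := hm.comp (by fun_prop)
  have mp := volume_preserving_finTwoArrow ℝ
  have hHN : ∫⁻ v, ‖H v‖ₑ ^ 2 ≤ K ^ 2 := by
    refine le_trans (le_of_eq ?_) hN
    exact mp.lintegral_comp (hm.enorm.pow_const 2)
  have e1 : ∀ (y : Fin 2 → ℝ) (t : ℝ), ∫ v in Pool.Agent.Y183.LS.BA 1 2,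
      H v * Pool.Agent.W771.MD.em y t v = GG h ((y 0, y 1), t) := by
    intro y t
    have e2 : ∫ v in Pool.Agent.Y183.LS.BA 1 2, H v * Pool.Agent.W771.MD.em y t v =
        ∫ v, H v * Pool.Agent.W771.MD.em y t v := by
      apply setIntegral_eq_integral_of_forall_compl_eq_zero
      intro v hv
      rw [hH]
      simp only
      rw [h0, zero_mul]
      intro hc
      apply hv
      rw [mem_Icc, Pi.le_def, Pi.le_def]
      exact ⟨Fin.forall_fin_two.2 ⟨hc.1.1, hc.2.1⟩, Fin.forall_fin_two.2 ⟨hc.1.2, hc.2.2⟩⟩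
    rw [e2]
    unfold GG
    rw [← mp.integral_comp' (g := fun x : ℝ × ℝ => h x *
      cexp (2 * Real.pi * I * ((ph x ((y 0, y 1), t) : ℝ) : ℂ)))]
    apply integral_congr_ae
    refine ae_of_all _ fun v => ?_
    simp only
    rw [em_two]
    rfl
  have e3 : ∫⁻ y, ‖GG h y‖ₑ ^ q ≤ (C * K) ^ q := by
    refine le_trans (le_of_eq ?_) (hC H hHm K hK hHN)
    rw [Measure.volume_eq_prod, lintegral_prod_symm _ hGm.aemeasurable]
    apply lintegral_congr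
    intro t
    simp only [e1]
    exact (mp.lintegral_comp (hGm.comp
      (by fun_prop : Measurable fun z : ℝ × ℝ => ((z, t) : (ℝ × ℝ) × ℝ)))).symm
  have hs : (-(2 * Real.pi)⁻¹ : ℝ) ≠ 0 := by
    have : (0 : ℝ) < (2 * Real.pi)⁻¹ := by positivity
    linarith
  have hfr : Module.finrank ℝ ((ℝ × ℝ) × ℝ) = 3 := by simp
  have hhaar : (volume : Measure ((ℝ × ℝ) × ℝ)).IsAddHaarMeasure := by
    rw [Measure.volume_eq_prod]
    infer_instance
  have h5 := Measure.map_addHaar_smul (volume : Measure ((ℝ × ℝ) × ℝ)) hs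
  rw [hfr] at h5
  have e4 : ∫⁻ y, ‖EP h y‖ₑ ^ q = ENNReal.ofReal ((2 * Real.pi) ^ 3) * ∫⁻ y, ‖GG h y‖ₑ ^ q := by
    simp only [EP_GG]
    have h6 : ∫⁻ y, ‖GG h ((-(2 * Real.pi)⁻¹ : ℝ) • y)‖ₑ ^ q =
        ∫⁻ y, ‖GG h y‖ₑ ^ q ∂(Measure.map ((-(2 * Real.pi)⁻¹ : ℝ) • ·) volume) :=
      (lintegral_map hGm (measurable_const_smul _)).symm
    rw [h6, h5, lintegral_smul_measure, smul_eq_mul]
    congr 2
    have h7 : (-(2 * Real.pi)⁻¹ : ℝ) ^ 3 = -((2 * Real.pi) ^ 3)⁻¹ := by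
      rw [Odd.neg_pow (by decide), inv_pow]
    rw [h7, inv_neg, inv_inv, abs_neg, abs_of_pos (by positivity)]
  rw [e4]
  calc ENNReal.ofReal ((2 * Real.pi) ^ 3) * ∫⁻ y, ‖GG h y‖ₑ ^ q
      ≤ ENNReal.ofReal ((2 * Real.pi) ^ 3) ^ q * (C * K) ^ q := by
        refine mul_le_mul' ?_ e3
        have h8 : 1 ≤ ENNReal.ofReal ((2 * Real.pi) ^ 3) := by
          rw [ENNReal.one_le_ofReal]
          exact one_le_pow₀ hpi1
        calc ENNReal.ofReal ((2 * Real.pi) ^ 3) = ENNReal.ofReal ((2 * Real.pi) ^ 3) ^ (1 : ℝ) :=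
              (ENNReal.rpow_one _).symm
          _ ≤ _ := ENNReal.rpow_le_rpow_of_exponent_le h8 (by linarith)
    _ = _ := by
        rw [← ENNReal.mul_rpow_of_nonneg _ _ hq0.le, ← mul_assoc]
        push_cast
        rfl

end Pool.Agent.Q85.LR
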