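import Mathlib
import Pool.Agent.Q85.LR.B
import Pool.Agent.Q85.LR.C
import Pool.Agent.Q85.HL.M
set_option autoImplicit false
set_option linter.unusedSectionVars false

/-! The estimate for one kernel of finite rank. -/

namespace Pool.Agent.Q85.LR

open MeasureTheory Set Complex Filter Topology
open Pool.Agent.Q85.HL
open scoped ENNReal NNReal InnerProductSpace

/-- The estimate for one kernel. -/
theorem main1 (q p : ℝ) (hq : 3 < q) (hp : q / (q - 2) < p) : ∃ C : ℝ≥0, ∀ (H : Type)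
    [NormedAddCommGroup H] [InnerProductSpace ℂ H] [CompleteSpace H] (a b : ℝ → H)
    (c s : ℝ), c ^ 2 + s ^ 2 = 1 → StronglyMeasurable a → StronglyMeasurable b →
    Nm p a ≠ ⊤ → Nm p b ≠ ⊤ →
    eLpNorm (EP fun x => kn a b (rot c s x)) (ENNReal.ofReal q) volume ≤
      C * (Nm p a * Nm p b) := by
  obtain ⟨C, hC⟩ := main q p hq hp
  refine ⟨C, ?_⟩
  intro H _ _ _ a b c s hcs ha hb hNa hNb
  set a' : ℕ → ℝ → H := fun k => if k = 0 then a else 0 with ha'
  set b' : ℕ → ℝ → H := fun k => if k = 0 then b else 0 with hb'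
  have a0 : a' 0 = a := by rw [ha']; simp
  have b0 : b' 0 = b := by rw [hb']; simp
  have ak : ∀ k, k ≠ 0 → a' k = 0 := fun k hk => by rw [ha']; simp [hk]
  have bk : ∀ k, k ≠ 0 → b' k = 0 := fun k hk => by rw [hb']; simp [hk]
  have nz : Nm p (0 : ℝ → H) = 0 := by
    unfold Nm
    exact eLpNorm_zero
  have h1 := hC H a' b' (fun _ => c) (fun _ => s) (fun x => kn a b (rot c s x)) (fun _ => hcs)
    (fun k => by
      by_cases hk : k = 0
      · rw [hk, a0]; exact ha
      · rw [ak k hk]; exact stronglyMeasurable_zero)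
    (fun k => by
      by_cases hk : k = 0
      · rw [hk, b0]; exact hb
      · rw [bk k hk]; exact stronglyMeasurable_zero)
    (fun k => by
      by_cases hk : k = 0
      · rw [hk, a0]; exact hNa
      · rw [ak k hk, nz]; exact ENNReal.zero_ne_top)
    (fun k => by
      by_cases hk : k = 0
      · rw [hk, b0]; exact hNb
      · rw [bk k hk, nz]; exact ENNReal.zero_ne_top)
    (ae_of_all _ fun x => by
      rw [tsum_eq_single 0]
      · rw [a0, b0]
      · intro k hk
        rw [ak k hk]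
        unfold kn
        by_cases hx : rot c s x ∈ Ih ×ˢ Ih
        · rw [indicator_of_mem hx]
          simp
        · rw [indicator_of_notMem hx])
  rw [tsum_eq_single 0 (fun k hk => by rw [ak k hk, nz, zero_mul]), a0, b0] at h1
  exact h1

lemma kn_congr {H K : Type} [NormedAddCommGroup H] [InnerProductSpace ℂ H]
    [NormedAddCommGroup K] [InnerProductSpace ℂ K] {a b : ℝ → H} {u v : ℝ → K}
    (h : ∀ x y, ⟪a x, b y⟫_ℂ = ⟪u x, v y⟫_ℂ) : kn a b = kn u v := by
  ext z
  unfold kn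
  by_cases hz : z ∈ Ih ×ˢ Ih
  · rw [indicator_of_mem hz, indicator_of_mem hz, h]
  · rw [indicator_of_notMem hz, indicator_of_notMem hz]

lemma Nm_lint {H : Type} [NormedAddCommGroup H] {p : ℝ} (hp : 0 < p) (a : ℝ → H) :
    Nm p a = (∫⁻ u in Ih, ‖a u‖ₑ ^ p) ^ (1 / p) := by
  unfold Nm
  rw [eLpNorm_eq_lintegral_rpow_enorm_toReal (by simpa using hp) ENNReal.ofReal_ne_top,
    ENNReal.toReal_ofReal hp.le]

lemma int_of_Nm {H : Type} [NormedAddCommGroup H] {p : ℝ} (hp : 0 < p) {a : ℝ → H}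
    (ha : StronglyMeasurable a) (hN : Nm p a ≠ ⊤) :
    Integrable (fun x => ‖a x‖ ^ p) (volume.restrict Ih) := by
  have h1 : ∫⁻ u in Ih, ‖a u‖ₑ ^ p ≠ ⊤ := by
    intro h
    apply hN
    rw [Nm_lint hp, h, ENNReal.top_rpow_of_pos (by positivity)]
  refine ⟨(ha.norm.measurable.pow_const p).aestronglyMeasurable, ?_⟩
  unfold HasFiniteIntegral
  refine lt_of_le_of_lt (le_of_eq ?_) (lt_top_iff_ne_top.2 h1)
  apply lintegral_congr
  intro u
  rw [enorm_rpow' _ hp.le, ← ofReal_norm, Real.norm_of_nonneg (by positivity)]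

/-- the norm of the kernel -/
lemma kn_lint {H : Type} [NormedAddCommGroup H] [InnerProductSpace ℂ H] {p : ℝ} (hp : 0 < p)
    {u v : ℝ → H} (hu : StronglyMeasurable u) (hv : StronglyMeasurable v) :
    ∫⁻ z, ‖kn u v z‖ₑ ^ p = ∫⁻ x in Ih, ∫⁻ y in Ih, ‖⟪u x, v y⟫_ℂ‖ₑ ^ p := by
  have hm : Measurable fun z : ℝ × ℝ => ‖⟪u z.1, v z.2⟫_ℂ‖ₑ ^ p :=
    ((hu.comp_measurable measurable_fst).inner (hv.comp_measurable measurable_snd)).enorm.pow_const p
  have h1 : ∀ z, ‖kn u v z‖ₑ ^ p = (Ih ×ˢ Ih).indicator (fun z => ‖⟪u z.1, v z.2⟫_ℂ‖ₑ ^ p) z := by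
    intro z
    unfold kn
    by_cases hz : z ∈ Ih ×ˢ Ih
    · rw [indicator_of_mem hz, indicator_of_mem hz]
    · rw [indicator_of_notMem hz, indicator_of_notMem hz, enorm_zero, ENNReal.zero_rpow_of_pos hp]
  simp only [h1]
  rw [lintegral_indicator (Ih_meas.prod Ih_meas), Measure.volume_eq_prod,
    ← Measure.prod_restrict, lintegral_prod _ hm.aemeasurable]

lemma kn_meas {H : Type} [NormedAddCommGroup H] [InnerProductSpace ℂ H]
    {u v : ℝ → H} (hu : StronglyMeasurable u) (hv : StronglyMeasurable v) :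
    StronglyMeasurable (kn u v) := by
  unfold kn
  exact ((hu.comp_measurable measurable_fst).inner
    (hv.comp_measurable measurable_snd)).indicator (Ih_meas.prod Ih_meas)

/-- The bound near the critical exponent. -/
theorem near (q : ℝ) (hq : 3 < q) : ∃ C : ℝ≥0, ∀ (r : ℕ) (_ : 0 < r) (u v : ℝ → EU r)
    (c s : ℝ), c ^ 2 + s ^ 2 = 1 → StronglyMeasurable u → StronglyMeasurable v →
    Nm 3 u ≠ ⊤ → Nm 3 v ≠ ⊤ →
    eLpNorm (EP fun x => kn u v (rot c s x)) (ENNReal.ofReal q) volume ≤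
      C * (ENNReal.ofReal ((r : ℝ) ^ (1 / 2 : ℝ)) * eLpNorm (kn u v) 3 volume) := by
  obtain ⟨C, hC⟩ := main1 q 3 hq (by
    rw [div_lt_iff₀ (by linarith)]
    linarith)
  refine ⟨C, ?_⟩
  intro r hr u v c s hcs hu hv hNu hNv
  set X := eLpNorm (EP fun x => kn u v (rot c s x)) (ENNReal.ofReal q) volume with hX
  set A : ℝ≥0∞ := ∫⁻ z, ‖kn u v z‖ₑ ^ (3 : ℝ) with hA
  set R : ℝ≥0∞ := ENNReal.ofReal ((r : ℝ) ^ ((3 : ℝ) / 2)) with hR
  have hrR : (0 : ℝ) < r := by exact_mod_cast hr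
  have hui := int_of_Nm (by norm_num : (0 : ℝ) < 3) hu hNu
  have hvi := int_of_Nm (by norm_num : (0 : ℝ) < 3) hv hNv
  have hAeq := kn_lint (by norm_num : (0 : ℝ) < 3) hu hv
  -- the bound with `ε`
  have key : ∀ ε : ℝ, 0 < ε → X ^ (3 : ℝ) ≤ C ^ (3 : ℝ) * (R * (A + ENNReal.ofReal ε)) := by
    intro ε hε
    obtain ⟨a, b, ha, hb, hab, hb1, ha1⟩ := factor (volume.restrict Ih) hr 3 (by norm_num) hu hv
      hui hvi ε hε
    rw [← hAeq] at ha1
    by_cases hAt : A = ⊤
    · rw [hAt, top_add, hR]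
      by_cases hC0 : (C : ℝ≥0∞) = 0
      · -- then `X = 0`
        have hx0 : X = 0 := by
          by_cases hh : Nm 3 a ≠ ⊤
          · have h1 := hC (EU r) a b c s hcs ha hb hh (by
              rw [Nm_lint (by norm_num)]
              exact ENNReal.rpow_ne_top_of_nonneg (by norm_num)
                (ne_top_of_le_ne_top ENNReal.one_ne_top hb1))
            rw [kn_congr hab, hC0, zero_mul] at h1
            exact le_antisymm h1 zero_le
          · have h1 := hC (EU r) u v c s hcs hu hv hNu hNv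
            rw [hC0, zero_mul] at h1
            exact le_antisymm h1 zero_le
        rw [hx0, ENNReal.zero_rpow_of_pos (by norm_num)]
        exact zero_le
      · have h2 : ENNReal.ofReal ((r : ℝ) ^ ((3 : ℝ) / 2)) ≠ 0 := by
          have : 0 < (r : ℝ) ^ ((3 : ℝ) / 2) := by positivity
          simpa using this
        rw [ENNReal.mul_top h2, ENNReal.mul_top]
        · exact le_top
        · simpa using hC0
    have hbN : Nm 3 b ≤ 1 := by
      rw [Nm_lint (by norm_num)]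
      exact ENNReal.rpow_le_one hb1 (by norm_num)
    have haN : Nm 3 a ≤ (R * (A + ENNReal.ofReal ε)) ^ (1 / 3 : ℝ) := by
      rw [Nm_lint (by norm_num)]
      exact ENNReal.rpow_le_rpow ha1 (by norm_num)
    have hfin : (R * (A + ENNReal.ofReal ε)) ^ (1 / 3 : ℝ) ≠ ⊤ :=
      ENNReal.rpow_ne_top_of_nonneg (by norm_num) (ENNReal.mul_ne_top ENNReal.ofReal_ne_top
        (ENNReal.add_ne_top.2 ⟨hAt, ENNReal.ofReal_ne_top⟩))
    have h1 := hC (EU r) a b c s hcs ha hb (ne_top_of_le_ne_top hfin haN)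
      (ne_top_of_le_ne_top ENNReal.one_ne_top hbN)
    rw [kn_congr hab] at h1
    have h2 : X ≤ C * (R * (A + ENNReal.ofReal ε)) ^ (1 / 3 : ℝ) := by
      refine h1.trans (mul_le_mul' le_rfl ?_)
      calc Nm 3 a * Nm 3 b ≤ (R * (A + ENNReal.ofReal ε)) ^ (1 / 3 : ℝ) * 1 :=
            mul_le_mul' haN hbN
        _ = _ := mul_one _
    calc X ^ (3 : ℝ) ≤ (C * (R * (A + ENNReal.ofReal ε)) ^ (1 / 3 : ℝ)) ^ (3 : ℝ) :=
          ENNReal.rpow_le_rpow h2 (by norm_num)
      _ = _ := by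
          rw [ENNReal.mul_rpow_of_nonneg _ _ (by norm_num), ← ENNReal.rpow_mul]
          norm_num
  -- the limit
  have hlim : X ^ (3 : ℝ) ≤ C ^ (3 : ℝ) * (R * A) := by
    have t1 : Tendsto (fun n : ℕ => ENNReal.ofReal (1 / ((n : ℝ) + 1))) atTop (𝓝 0) := by
      have := ENNReal.tendsto_ofReal (tendsto_one_div_add_atTop_nhds_zero_nat (𝕜 := ℝ))
      simpa using this
    have t2 : Tendsto (fun n : ℕ => C ^ (3 : ℝ) * (R * (A + ENNReal.ofReal (1 / ((n : ℝ) + 1)))))
        atTop (𝓝 (C ^ (3 : ℝ) * (R * (A + 0)))) := by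
      apply ENNReal.Tendsto.const_mul
      · apply ENNReal.Tendsto.const_mul
        · exact tendsto_const_nhds.add t1
        · right
          exact ENNReal.ofReal_ne_top
      · right
        exact ENNReal.rpow_ne_top_of_nonneg (by norm_num) ENNReal.coe_ne_top
    rw [add_zero] at t2
    exact ge_of_tendsto t2 (Eventually.of_forall fun n => key _ (by positivity))
  have e1 : eLpNorm (kn u v) 3 volume = A ^ (1 / 3 : ℝ) := by
    rw [eLpNorm_eq_lintegral_rpow_enorm_toReal (by norm_num) (by norm_num), ENNReal.toReal_ofNat]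
  calc X = (X ^ (3 : ℝ)) ^ (1 / 3 : ℝ) := by
        rw [← ENNReal.rpow_mul]
        norm_num
    _ ≤ (C ^ (3 : ℝ) * (R * A)) ^ (1 / 3 : ℝ) := ENNReal.rpow_le_rpow hlim (by norm_num)
    _ = _ := by
        rw [ENNReal.mul_rpow_of_nonneg _ _ (by norm_num), ENNReal.mul_rpow_of_nonneg _ _ (by norm_num),
          ← ENNReal.rpow_mul, e1, hR, ENNReal.ofReal_rpow_of_pos (by positivity),
          ← Real.rpow_mul hrR.le]
        norm_num

end Pool.Agent.Q85.LR
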