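import Mathlib
import Pool.Agent.Q85.LR.D
set_option autoImplicit false
set_option linter.unusedSectionVars false

/-! Interpolation, truncation, sums. -/

namespace Pool.Agent.Q85.LR

open MeasureTheory Set Complex Filter Topology
open Pool.Agent.Q85.HL
open scoped ENNReal NNReal InnerProductSpace

/-- log-convexity of the norms -/
lemma interp {X : Type*} [MeasurableSpace X] (μ : Measure X) (f : X → ℝ≥0∞) (hf : Measurable f)
    (q q0 q1 θ : ℝ) (hq : 0 < q) (h0 : 0 < q0) (h1 : 0 < q1) (hθ0 : 0 < θ) (hθ1 : θ < 1)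
    (hqq : 1 / q = θ / q0 + (1 - θ) / q1) : (∫⁻ x, f x ^ q ∂μ) ^ (1 / q) ≤
      ((∫⁻ x, f x ^ q0 ∂μ) ^ (1 / q0)) ^ θ * ((∫⁻ x, f x ^ q1 ∂μ) ^ (1 / q1)) ^ (1 - θ) := by
  have hθ2 : 0 < 1 - θ := by linarith
  have e0 : q * θ / q0 + q * (1 - θ) / q1 = 1 := by
    have : q * (1 / q) = q * (θ / q0 + (1 - θ) / q1) := by rw [hqq]
    rw [mul_one_div_cancel hq.ne'] at this
    have h2 : q * (θ / q0 + (1 - θ) / q1) = q * θ / q0 + q * (1 - θ) / q1 := by ring
    linarith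
  have e1 : ∀ x, f x ^ q = (f x ^ q0) ^ (q * θ / q0) * (f x ^ q1) ^ (q * (1 - θ) / q1) := by
    intro x
    rw [← ENNReal.rpow_mul, ← ENNReal.rpow_mul, ← ENNReal.rpow_add_of_nonneg _ _ (by positivity)
      (by positivity)]
    congr 1
    field_simp
    ring
  have h2 : ∫⁻ x, f x ^ q ∂μ ≤ (∫⁻ x, f x ^ q0 ∂μ) ^ (q * θ / q0) *
      (∫⁻ x, f x ^ q1 ∂μ) ^ (q * (1 - θ) / q1) := by
    simp only [e1]
    exact ENNReal.lintegral_mul_norm_pow_le (hf.pow_const _).aemeasurable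
      (hf.pow_const _).aemeasurable (by positivity) (by positivity) e0
  calc (∫⁻ x, f x ^ q ∂μ) ^ (1 / q) ≤ ((∫⁻ x, f x ^ q0 ∂μ) ^ (q * θ / q0) *
      (∫⁻ x, f x ^ q1 ∂μ) ^ (q * (1 - θ) / q1)) ^ (1 / q) :=
        ENNReal.rpow_le_rpow h2 (by positivity)
    _ = _ := by
        rw [ENNReal.mul_rpow_of_nonneg _ _ (by positivity), ← ENNReal.rpow_mul, ← ENNReal.rpow_mul,
          ← ENNReal.rpow_mul, ← ENNReal.rpow_mul]
        congr 2
        · field_simp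
        · field_simp

/-- the parameters -/
lemma params (q κ : ℝ) (hq : 3 < q) (hκ : 0 < κ) (hκ' : 6 / q - 3 / 2 < κ) :
    ∃ q0 q1 θ : ℝ, 3 < q0 ∧ 4 < q1 ∧ 0 < θ ∧ θ < 1 ∧ 1 / q = θ / q0 + (1 - θ) / q1 ∧
      θ / 2 ≤ κ := by
  set m : ℝ := max q 4 with hm
  have hq0 : 0 < q := by linarith
  have hm4 : 4 ≤ m := le_max_right _ _
  have hmq : q ≤ m := le_max_left _ _
  set F : ℝ → ℝ := fun η => (1 / q - 1 / (m + η)) / (1 / (3 + η) - 1 / (m + η)) with hF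
  have hF0 : F 0 < 2 * κ := by
    rw [hF]
    simp only [add_zero]
    rcases le_total 4 q with h | h
    · have : m = q := max_eq_left h
      rw [this, sub_self, zero_div]
      linarith
    · have : m = 4 := max_eq_right h
      rw [this]
      have e1 : (1 / q - 1 / 4) / (1 / 3 - 1 / 4) = 12 / q - 3 := by
        field_simp
        ring
      rw [e1]
      have e2 : 12 / q - 3 = 2 * (6 / q - 3 / 2) := by ring
      rw [e2]
      linarith
  have hFc : ContinuousAt F 0 := by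
    have c1 : ContinuousAt (fun η : ℝ => 1 / (m + η)) 0 := by
      apply ContinuousAt.div continuousAt_const (by fun_prop)
      rw [add_zero]
      linarith
    have c2 : ContinuousAt (fun η : ℝ => 1 / (3 + η)) 0 := by
      apply ContinuousAt.div continuousAt_const (by fun_prop)
      norm_num
    apply ContinuousAt.div (continuousAt_const.sub c1) (c2.sub c1)
    show (1 / (3 + (0 : ℝ)) - 1 / (m + 0)) ≠ 0
    rw [add_zero, add_zero]
    have e1 : 1 / m ≤ 1 / 4 := one_div_le_one_div_of_le (by norm_num) hm4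
    have e2 : (0 : ℝ) < 1 / 3 - 1 / m := by linarith
    exact e2.ne'
  have hev : ∀ᶠ η in 𝓝[>] (0 : ℝ), F η < 2 * κ :=
    (hFc.eventually (gt_mem_nhds hF0)).filter_mono nhdsWithin_le_nhds
  have hev2 : ∀ᶠ η in 𝓝[>] (0 : ℝ), η < q - 3 := by
    have : ∀ᶠ η in 𝓝 (0 : ℝ), η < q - 3 := gt_mem_nhds (by linarith)
    exact this.filter_mono nhdsWithin_le_nhds
  have hev3 : ∀ᶠ η in 𝓝[>] (0 : ℝ), 0 < η := self_mem_nhdsWithin
  obtain ⟨η, ⟨h1, h2⟩, h3⟩ := ((hev.and hev2).and hev3).exists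
  have hd0 : 1 / (m + η) < 1 / (3 + η) := one_div_lt_one_div_of_lt (by linarith) (by linarith)
  have hd1 : 1 / (m + η) < 1 / q := one_div_lt_one_div_of_lt hq0 (by linarith)
  have hd2 : 1 / q < 1 / (3 + η) := one_div_lt_one_div_of_lt (by linarith) (by linarith)
  have hden : 0 < 1 / (3 + η) - 1 / (m + η) := by linarith
  refine ⟨3 + η, m + η, F η, by linarith, by linarith, ?_, ?_, ?_, by linarith⟩
  · exact div_pos (by linarith) hden
  · rw [hF]
    simp only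
    rw [div_lt_one hden]
    linarith
  · have e1 : F η * (1 / (3 + η) - 1 / (m + η)) = 1 / q - 1 / (m + η) := by
      rw [hF]
      simp only
      rw [div_mul_cancel₀ _ hden.ne']
    have e2 : F η / (3 + η) + (1 - F η) / (m + η) =
        F η * (1 / (3 + η) - 1 / (m + η)) + 1 / (m + η) := by ring
    rw [e2, e1]
    ring

lemma kn_zero {H : Type} [NormedAddCommGroup H] [InnerProductSpace ℂ H] (u v : ℝ → H) {c s : ℝ}
    (hcs : c ^ 2 + s ^ 2 = 1) (x : ℝ × ℝ) (hx : x ∉ Icc (-1 : ℝ) 1 ×ˢ Icc (-1 : ℝ) 1) :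
    kn u v (rot c s x) = 0 := by
  unfold kn
  apply indicator_of_notMem
  intro h
  apply hx
  have h1 : |c * x.1 + s * x.2| ≤ 1 / 2 := abs_le.2 ⟨by have := h.1.1; simp only [rot] at this; linarith,
    by have := h.1.2; simp only [rot] at this; linarith⟩
  have h2 : |-s * x.1 + c * x.2| ≤ 1 / 2 := abs_le.2 ⟨by have := h.2.1; simp only [rot] at this; linarith,
    by have := h.2.2; simp only [rot] at this; linarith⟩
  have h3 : (c * x.1 + s * x.2) ^ 2 ≤ (1 / 2) ^ 2 := sq_le_sq' (by linarith [(abs_le.1 h1).1])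
    (abs_le.1 h1).2
  have h4 : (-s * x.1 + c * x.2) ^ 2 ≤ (1 / 2) ^ 2 := sq_le_sq' (by linarith [(abs_le.1 h2).1])
    (abs_le.1 h2).2
  have h5 : x.1 ^ 2 + x.2 ^ 2 = (c * x.1 + s * x.2) ^ 2 + (-s * x.1 + c * x.2) ^ 2 := by
    linear_combination (-(x.1 ^ 2 + x.2 ^ 2)) * hcs
  constructor
  · rw [mem_Icc, ← abs_le]
    apply abs_le_of_sq_le_sq _ (by norm_num)
    nlinarith [sq_nonneg x.2]
  · rw [mem_Icc, ← abs_le]
    apply abs_le_of_sq_le_sq _ (by norm_num)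
    nlinarith [sq_nonneg x.1]

/-- comparison of the norms of a kernel -/
lemma kn_mono {H : Type} [NormedAddCommGroup H] [InnerProductSpace ℂ H] {u v : ℝ → H}
    (hu : StronglyMeasurable u) (hv : StronglyMeasurable v) {p r : ℝ≥0∞} (hpr : p ≤ r) :
    eLpNorm (kn u v) p volume ≤ eLpNorm (kn u v) r volume := by
  have h1 : ∀ t : ℝ≥0∞, eLpNorm (kn u v) t volume =
      eLpNorm (kn u v) t (volume.restrict (Ih ×ˢ Ih)) := by
    intro t
    have h2 : kn u v = (Ih ×ˢ Ih).indicator (kn u v) := by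
      ext z
      by_cases hz : z ∈ Ih ×ˢ Ih
      · rw [indicator_of_mem hz]
      · rw [indicator_of_notMem hz]
        unfold kn
        rw [indicator_of_notMem hz]
    conv_lhs => rw [h2]
    rw [eLpNorm_indicator_eq_eLpNorm_restrict (Ih_meas.prod Ih_meas)]
  rw [h1 p, h1 r]
  have hpr' : IsProbabilityMeasure (volume.restrict (Ih ×ˢ Ih)) := ⟨by
    rw [Measure.restrict_apply_univ, Measure.volume_eq_prod, Measure.prod_prod, Ih_vol, one_mul]⟩
  exact eLpNorm_le_eLpNorm_of_exponent_le hpr (kn_meas hu hv).aestronglyMeasurable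

lemma EPk_meas {H : Type} [NormedAddCommGroup H] [InnerProductSpace ℂ H] {u v : ℝ → H} {c s : ℝ}
    (hcs : c ^ 2 + s ^ 2 = 1) (hi : Integrable (kn u v)) :
    Continuous (EP fun x => kn u v (rot c s x)) := by
  apply EP_cont
  exact ((rot_mp hcs).integrable_comp_emb ((rot_meas c s).measurableEmbedding (rot_inj hcs))).2 hi

/-- The intermediate bound for factors in `L³`. -/
theorem mid (q κ : ℝ) (hq : 3 < q) (hκ : 0 < κ) (hκ' : 6 / q - 3 / 2 < κ) : ∃ C : ℝ≥0,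
    ∀ (r : ℕ) (_ : 0 < r) (u v : ℝ → EU r) (c s : ℝ), c ^ 2 + s ^ 2 = 1 →
    StronglyMeasurable u → StronglyMeasurable v → Nm 3 u ≠ ⊤ → Nm 3 v ≠ ⊤ →
    eLpNorm (kn u v) 3 volume ≠ ⊤ →
    eLpNorm (EP fun x => kn u v (rot c s x)) (ENNReal.ofReal q) volume ≤
      C * (ENNReal.ofReal ((r : ℝ) ^ κ) * eLpNorm (kn u v) 3 volume) := by
  obtain ⟨q0, q1, θ, hq0, hq1, hθ0, hθ1, hqq, hθκ⟩ := params q κ hq hκ hκ'
  obtain ⟨C0, hC0⟩ := near q0 hq0
  obtain ⟨C1, hC1⟩ := tomasP q1 hq1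
  have hθ2 : 0 < 1 - θ := by linarith
  refine ⟨(C0 ^ θ) * (C1 ^ (1 - θ)), ?_⟩
  intro r hr u v c s hcs hu hv hNu hNv hfin
  have hrR : (1 : ℝ) ≤ r := by exact_mod_cast hr
  have hr0 : (0 : ℝ) < r := by linarith
  set N := eLpNorm (kn u v) 3 volume with hN
  set h : ℝ × ℝ → ℂ := fun x => kn u v (rot c s x) with hh
  have hkm := kn_meas hu hv
  have hi : Integrable (kn u v) := by
    rw [← memLp_one_iff_integrable]
    refine ⟨hkm.aestronglyMeasurable, ?_⟩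
    exact lt_of_le_of_lt (kn_mono hu hv (by norm_num)) (lt_top_iff_ne_top.2 hfin)
  have hEm : Measurable fun y => ‖EP h y‖ₑ := (EPk_meas hcs hi).enorm.measurable
  have b0 : eLpNorm (EP h) (ENNReal.ofReal q0) volume ≤
      C0 * (ENNReal.ofReal ((r : ℝ) ^ (1 / 2 : ℝ)) * N) := hC0 r hr u v c s hcs hu hv hNu hNv
  have hh2 : ∫⁻ x, ‖h x‖ₑ ^ 2 ≤ N ^ 2 := by
    have e1 : ∫⁻ x, ‖h x‖ₑ ^ 2 = ∫⁻ x, ‖kn u v x‖ₑ ^ 2 :=
      (rot_mp hcs).lintegral_comp (hkm.measurable.enorm.pow_const 2)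
    have e2 : ∫⁻ x, ‖kn u v x‖ₑ ^ 2 = (eLpNorm (kn u v) 2 volume) ^ 2 := by
      rw [eLpNorm_eq_lintegral_rpow_enorm_toReal (by norm_num) (by norm_num), ENNReal.toReal_ofNat,
        ← ENNReal.rpow_natCast, ← ENNReal.rpow_mul]
      norm_num
    rw [e1, e2]
    exact pow_le_pow_left' (kn_mono hu hv (by norm_num)) 2
  have b1' := hC1 h (hkm.measurable.comp (rot_meas c s)) (fun x hx => kn_zero u v hcs x hx) N hfin hh2
  have hQ : ∀ t : ℝ, 0 < t → eLpNorm (EP h) (ENNReal.ofReal t) volume =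
      (∫⁻ y, ‖EP h y‖ₑ ^ t) ^ (1 / t) := by
    intro t ht
    rw [eLpNorm_eq_lintegral_rpow_enorm_toReal (by simpa using ht) ENNReal.ofReal_ne_top,
      ENNReal.toReal_ofReal ht.le]
  have b1 : eLpNorm (EP h) (ENNReal.ofReal q1) volume ≤ C1 * N := by
    rw [hQ q1 (by linarith)]
    calc (∫⁻ y, ‖EP h y‖ₑ ^ q1) ^ (1 / q1) ≤ ((C1 * N) ^ q1) ^ (1 / q1) :=
          ENNReal.rpow_le_rpow b1' (by positivity)
      _ = C1 * N := by
          rw [← ENNReal.rpow_mul, mul_one_div_cancel (by linarith), ENNReal.rpow_one]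
  have h3 := interp volume (fun y => ‖EP h y‖ₑ) hEm q q0 q1 θ (by linarith) (by linarith)
    (by linarith) hθ0 hθ1 hqq
  rw [← hQ q (by linarith), ← hQ q0 (by linarith), ← hQ q1 (by linarith)] at h3
  refine h3.trans ?_
  calc (eLpNorm (EP h) (ENNReal.ofReal q0) volume) ^ θ *
        (eLpNorm (EP h) (ENNReal.ofReal q1) volume) ^ (1 - θ)
      ≤ (C0 * (ENNReal.ofReal ((r : ℝ) ^ (1 / 2 : ℝ)) * N)) ^ θ * (C1 * N) ^ (1 - θ) :=
        mul_le_mul' (ENNReal.rpow_le_rpow b0 hθ0.le) (ENNReal.rpow_le_rpow b1 hθ2.le)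
    _ = ((C0 : ℝ≥0∞) ^ θ * (C1 : ℝ≥0∞) ^ (1 - θ)) *
        ((ENNReal.ofReal ((r : ℝ) ^ (1 / 2 : ℝ))) ^ θ * (N ^ θ * N ^ (1 - θ))) := by
        rw [ENNReal.mul_rpow_of_nonneg _ _ hθ0.le, ENNReal.mul_rpow_of_nonneg _ _ hθ0.le,
          ENNReal.mul_rpow_of_nonneg _ _ hθ2.le]
        ring
    _ ≤ _ := by
        have e1 : N ^ θ * N ^ (1 - θ) = N := by
          rw [← ENNReal.rpow_add_of_nonneg _ _ hθ0.le hθ2.le, add_sub_cancel, ENNReal.rpow_one]
        rw [e1, ENNReal.ofReal_rpow_of_pos (by positivity), ← Real.rpow_mul hr0.le]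
        refine mul_le_mul' (le_of_eq ?_) (mul_le_mul' ?_ le_rfl)
        · push_cast
          rw [ENNReal.coe_rpow_of_nonneg _ hθ0.le, ENNReal.coe_rpow_of_nonneg _ hθ2.le]
        · apply ENNReal.ofReal_le_ofReal
          apply Real.rpow_le_rpow_of_exponent_le hrR
          linarith

end Pool.Agent.Q85.LR
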