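import Mathlib
import Pool.Agent.Q85.LR.E
set_option autoImplicit false
set_option linter.unusedSectionVars false

/-! Kernels of finite rank without integrability assumptions on the factors, and their sums. -/

namespace Pool.Agent.Q85.LR

open MeasureTheory Set Complex Filter Topology
open Pool.Agent.Q85.HL
open scoped ENNReal NNReal InnerProductSpace

/-- truncation -/
noncomputable def tc {r : ℕ} (n : ℕ) (u : ℝ → EU r) : ℝ → EU r :=
  {x | ‖u x‖ ≤ n}.indicator u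

lemma tc_meas {r : ℕ} (n : ℕ) {u : ℝ → EU r} (hu : StronglyMeasurable u) :
    StronglyMeasurable (tc n u) :=
  hu.indicator (measurableSet_le hu.norm.measurable measurable_const)

lemma tc_le {r : ℕ} (n : ℕ) (u : ℝ → EU r) (x : ℝ) : ‖tc n u x‖ ≤ n := by
  unfold tc
  by_cases h : x ∈ {x | ‖u x‖ ≤ n}
  · rw [indicator_of_mem h]
    exact h
  · rw [indicator_of_notMem h, norm_zero]
    positivity

lemma tc_Nm {r : ℕ} (n : ℕ) (u : ℝ → EU r) : Nm 3 (tc n u) ≠ ⊤ := by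
  unfold Nm
  refine ne_top_of_le_ne_top ?_ (eLpNorm_le_of_ae_bound (C := n) (ae_of_all _ (tc_le n u)))
  apply ENNReal.mul_ne_top _ ENNReal.ofReal_ne_top
  apply ENNReal.rpow_ne_top_of_nonneg (by positivity)
  rw [Measure.restrict_apply_univ, Ih_vol]
  exact ENNReal.one_ne_top

lemma tc_kn {r : ℕ} (n : ℕ) (u v : ℝ → EU r) (z : ℝ × ℝ) :
    ‖kn (tc n u) (tc n v) z‖ ≤ ‖kn u v z‖ := by
  unfold kn
  by_cases hz : z ∈ Ih ×ˢ Ih
  · rw [indicator_of_mem hz, indicator_of_mem hz]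
    unfold tc
    by_cases h1 : z.1 ∈ {x | ‖u x‖ ≤ n}
    · by_cases h2 : z.2 ∈ {x | ‖v x‖ ≤ n}
      · rw [indicator_of_mem h1, indicator_of_mem h2]
      · rw [indicator_of_notMem h2, inner_zero_right, norm_zero]
        exact norm_nonneg _
    · rw [indicator_of_notMem h1, inner_zero_left, norm_zero]
      exact norm_nonneg _
  · rw [indicator_of_notMem hz, indicator_of_notMem hz]

lemma tc_lim {r : ℕ} (u v : ℝ → EU r) (z : ℝ × ℝ) :
    Tendsto (fun n : ℕ => kn (tc n u) (tc n v) z) atTop (𝓝 (kn u v z)) := by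
  obtain ⟨m1, h1⟩ := exists_nat_ge ‖u z.1‖
  obtain ⟨m2, h2⟩ := exists_nat_ge ‖v z.2‖
  refine tendsto_const_nhds.congr' ?_
  filter_upwards [eventually_ge_atTop (max m1 m2)] with n hn
  have e1 : ‖u z.1‖ ≤ n := h1.trans (by exact_mod_cast (le_max_left _ _).trans hn)
  have e2 : ‖v z.2‖ ≤ n := h2.trans (by exact_mod_cast (le_max_right _ _).trans hn)
  unfold kn tc
  by_cases hz : z ∈ Ih ×ˢ Ih
  · rw [indicator_of_mem hz, indicator_of_mem hz,
      indicator_of_mem (show z.1 ∈ {x | ‖u x‖ ≤ n} from e1),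
      indicator_of_mem (show z.2 ∈ {x | ‖v x‖ ≤ n} from e2)]
  · rw [indicator_of_notMem hz, indicator_of_notMem hz]

/-- One kernel of finite rank. -/
theorem single (q κ : ℝ) (hq : 3 < q) (hκ : 0 < κ) (hκ' : 6 / q - 3 / 2 < κ) : ∃ C : ℝ≥0,
    ∀ (r : ℕ) (_ : 0 < r) (u v : ℝ → EU r) (c s : ℝ), c ^ 2 + s ^ 2 = 1 →
    StronglyMeasurable u → StronglyMeasurable v → eLpNorm (kn u v) 3 volume ≠ ⊤ →
    ∫⁻ y, ‖EP (fun x => kn u v (rot c s x)) y‖ₑ ^ q ≤
      (C * (ENNReal.ofReal ((r : ℝ) ^ κ) * eLpNorm (kn u v) 3 volume)) ^ q := by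
  obtain ⟨C, hC⟩ := mid q κ hq hκ hκ'
  have hq0 : 0 < q := by linarith
  refine ⟨C, ?_⟩
  intro r hr u v c s hcs hu hv hfin
  set N := eLpNorm (kn u v) 3 volume with hN
  set h : ℝ × ℝ → ℂ := fun x => kn u v (rot c s x) with hh
  set hn : ℕ → ℝ × ℝ → ℂ := fun n x => kn (tc n u) (tc n v) (rot c s x) with hhn
  have emb := (rot_meas c s).measurableEmbedding (rot_inj hcs)
  have hkm := kn_meas hu hv
  have hki : Integrable (kn u v) := by
    rw [← memLp_one_iff_integrable]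
    refine ⟨hkm.aestronglyMeasurable, ?_⟩
    exact lt_of_le_of_lt (kn_mono hu hv (by norm_num)) (lt_top_iff_ne_top.2 hfin)
  have hi : Integrable h := ((rot_mp hcs).integrable_comp_emb emb).2 hki
  have hknm : ∀ n, StronglyMeasurable (kn (tc n u) (tc n v)) := fun n =>
    kn_meas (tc_meas n hu) (tc_meas n hv)
  have hkni : ∀ n, Integrable (kn (tc n u) (tc n v)) := fun n =>
    hki.mono (hknm n).aestronglyMeasurable (ae_of_all _ fun z => tc_kn n u v z)
  have hNn : ∀ n, eLpNorm (kn (tc n u) (tc n v)) 3 volume ≤ N := fun n =>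
    eLpNorm_mono (tc_kn n u v)
  -- the bound for the truncations
  have b1 : ∀ n, ∫⁻ y, ‖EP (hn n) y‖ₑ ^ q ≤ (C * (ENNReal.ofReal ((r : ℝ) ^ κ) * N)) ^ q := by
    intro n
    have h1 := hC r hr (tc n u) (tc n v) c s hcs (tc_meas n hu) (tc_meas n hv) (tc_Nm n u)
      (tc_Nm n v) (ne_top_of_le_ne_top hfin (hNn n))
    rw [eLpNorm_eq_lintegral_rpow_enorm_toReal (by simpa using hq0) ENNReal.ofReal_ne_top,
      ENNReal.toReal_ofReal hq0.le] at h1
    calc ∫⁻ y, ‖EP (hn n) y‖ₑ ^ q = ((∫⁻ y, ‖EP (hn n) y‖ₑ ^ q) ^ (1 / q)) ^ q := by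
          rw [← ENNReal.rpow_mul, one_div_mul_cancel hq0.ne', ENNReal.rpow_one]
      _ ≤ (C * (ENNReal.ofReal ((r : ℝ) ^ κ) * eLpNorm (kn (tc n u) (tc n v)) 3 volume)) ^ q :=
          ENNReal.rpow_le_rpow h1 hq0.le
      _ ≤ _ := by
          gcongr
          exact hNn n
  -- convergence
  have b2 : ∀ y, Tendsto (fun n => EP (hn n) y) atTop (𝓝 (EP h y)) := by
    intro y
    unfold EP
    apply tendsto_integral_of_dominated_convergence (fun x => ‖h x‖)
    · intro n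
      apply AEStronglyMeasurable.mul
      · apply Continuous.aestronglyMeasurable
        unfold ph
        fun_prop
      · exact ((hknm n).comp_measurable (rot_meas c s)).aestronglyMeasurable
    · exact hi.norm
    · intro n
      refine ae_of_all _ fun x => ?_
      rw [norm_mul, cexp_norm, one_mul]
      exact tc_kn n u v _
    · refine ae_of_all _ fun x => ?_
      exact (tc_lim u v (rot c s x)).const_mul _
  have b3 : ∀ y, ‖EP h y‖ₑ ^ q = liminf (fun n => ‖EP (hn n) y‖ₑ ^ q) atTop := by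
    intro y
    symm
    apply Tendsto.liminf_eq
    have h1 : Tendsto (fun n => ‖EP (hn n) y‖ₑ) atTop (𝓝 ‖EP h y‖ₑ) :=
      (continuous_enorm.tendsto _).comp (b2 y)
    exact (ENNReal.continuous_rpow_const.tendsto _).comp h1
  simp only [b3]
  refine (lintegral_liminf_le fun n =>
    (EPk_meas hcs (hkni n)).enorm.measurable.pow_const q).trans ?_
  refine liminf_le_of_le (by isBoundedDefault) ?_
  intro b hb
  obtain ⟨n, hn'⟩ := hb.exists
  exact hn'.trans (b1 n)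

/-- Sums of kernels of finite rank. -/
theorem lowrank (q κ : ℝ) (hq : 3 < q) (hκ : 0 < κ) (hκ' : 6 / q - 3 / 2 < κ) : ∃ C : ℝ≥0,
    ∀ (r : ℕ → ℕ) (c s : ℕ → ℝ) (u v : ∀ k, ℝ → EU (r k)) (f : ℝ × ℝ → ℂ),
    (∀ k, 0 < r k) → (∀ k, c k ^ 2 + s k ^ 2 = 1) → (∀ k, StronglyMeasurable (u k)) →
    (∀ k, StronglyMeasurable (v k)) →
    (∀ᵐ x, f x = ∑' k, kn (u k) (v k) (rot (c k) (s k) x)) →
    eLpNorm (EP f) (ENNReal.ofReal q) volume ≤
      C * ∑' k, ENNReal.ofReal ((r k : ℝ) ^ κ) * eLpNorm (kn (u k) (v k)) 3 volume := by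
  obtain ⟨C, hC⟩ := single q κ hq hκ hκ'
  have hq0 : 0 < q := by linarith
  refine ⟨C + 1, ?_⟩
  intro r c s u v f hr hcs hu hv hf
  set w : ℕ → ℝ≥0∞ := fun k => ENNReal.ofReal ((r k : ℝ) ^ κ) * eLpNorm (kn (u k) (v k)) 3 volume
    with hw
  by_cases hwt : ∑' k, w k = ⊤
  · rw [hwt, ENNReal.mul_top]
    · exact le_top
    · have h1 : (1 : ℝ≥0∞) ≤ ((C + 1 : ℝ≥0) : ℝ≥0∞) := by
        push_cast
        exact le_add_self
      exact (lt_of_lt_of_le zero_lt_one h1).ne'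
  have hwk : ∀ k, w k ≠ ⊤ := fun k => ENNReal.ne_top_of_tsum_ne_top hwt k
  have hr1 : ∀ k, 1 ≤ ENNReal.ofReal ((r k : ℝ) ^ κ) := by
    intro k
    rw [ENNReal.one_le_ofReal]
    apply Real.one_le_rpow _ hκ.le
    exact_mod_cast hr k
  have hNw : ∀ k, eLpNorm (kn (u k) (v k)) 3 volume ≤ w k := by
    intro k
    calc eLpNorm (kn (u k) (v k)) 3 volume = 1 * eLpNorm (kn (u k) (v k)) 3 volume :=
          (one_mul _).symm
      _ ≤ _ := mul_le_mul' (hr1 k) le_rfl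
  have hNt : ∀ k, eLpNorm (kn (u k) (v k)) 3 volume ≠ ⊤ := fun k =>
    ne_top_of_le_ne_top (hwk k) (hNw k)
  set g : ℕ → ℝ × ℝ → ℂ := fun k x => kn (u k) (v k) (rot (c k) (s k) x) with hg
  have emb := fun k => (rot_meas (c k) (s k)).measurableEmbedding (rot_inj (hcs k))
  have hki : ∀ k, Integrable (kn (u k) (v k)) := by
    intro k
    rw [← memLp_one_iff_integrable]
    refine ⟨(kn_meas (hu k) (hv k)).aestronglyMeasurable, ?_⟩
    exact lt_of_le_of_lt (kn_mono (hu k) (hv k) (by norm_num)) (lt_top_iff_ne_top.2 (hNt k))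
  have hgi : ∀ k, Integrable (g k) := fun k =>
    ((rot_mp (hcs k)).integrable_comp_emb (emb k)).2 (hki k)
  have hgL : ∀ k, ∫⁻ x, ‖g k x‖ₑ ≤ w k := by
    intro k
    have e1 : ∫⁻ x, ‖g k x‖ₑ = ∫⁻ x, ‖kn (u k) (v k) x‖ₑ :=
      (rot_mp (hcs k)).lintegral_comp_emb (emb k) (fun x => ‖kn (u k) (v k) x‖ₑ)
    rw [e1, ← eLpNorm_one_eq_lintegral_enorm]
    exact (kn_mono (hu k) (hv k) (by norm_num)).trans (hNw k)
  have hgE : ∀ k, ∫⁻ y, ‖EP (g k) y‖ₑ ^ q ≤ (C : ℝ≥0∞) ^ q * w k ^ q := by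
    intro k
    rw [← ENNReal.mul_rpow_of_nonneg _ _ hq0.le]
    exact hC (r k) (hr k) (u k) (v k) (c k) (s k) (hcs k) (hu k) (hv k) (hNt k)
  have h1 := sum_bd q (by linarith) ((C : ℝ≥0∞) ^ q) w g hgi hgL hgE hwt f hf
  rw [eLpNorm_eq_lintegral_rpow_enorm_toReal (by simpa using hq0) ENNReal.ofReal_ne_top,
    ENNReal.toReal_ofReal hq0.le]
  calc (∫⁻ y, ‖EP f y‖ₑ ^ q) ^ (1 / q) ≤ ((C : ℝ≥0∞) ^ q * (∑' k, w k) ^ q) ^ (1 / q) :=
        ENNReal.rpow_le_rpow h1 (by positivity)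
    _ = C * ∑' k, w k := by
        rw [← ENNReal.mul_rpow_of_nonneg _ _ hq0.le, ← ENNReal.rpow_mul,
          mul_one_div_cancel hq0.ne', ENNReal.rpow_one]
    _ ≤ _ := by
        gcongr
        exact_mod_cast le_self_add

end Pool.Agent.Q85.LR
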